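import Mathlib
import Pool.Agent.H50.IV.Defs

/-!
# Quantitative data

As `Pool.Agent.H50.IV.Data`, with `E n = exp (C n)` in the polynomial bounds and `C n` as a bound
of `b n`. The scales `q, t, s, x`, the sums `B, B'`, the constants `K` and the regions `Reg` are
those of `Pool.Agent.H50.IV`.
-/

open Complex Set Filter Topology

namespace Pool.Agent.H50.IR

open Pool.Agent.H50.IV

structure Data (b φ F : ℕ → ℂ → ℂ) (ζ : ℕ → ℂ) (C A : ℕ → ℝ) : Prop where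
  C_ge : ∀ n : ℕ, (n : ℝ) + 2 ≤ C n
  C_step : ∀ n : ℕ, C n + 1 ≤ C (n + 1)
  db : ∀ n z, 0 ≤ z.re → HasDerivAt (b n) (φ n z) z
  dF : ∀ n z, 0 ≤ z.re → HasDerivAt (F n) (exp (b n z)) z
  hA : ∀ n z, 0 ≤ z.re → 2 * z.re * ‖φ n z‖ ≤ A n
  hφ : ∀ n z, 0 ≤ z.re → ‖φ n z‖ ≤ Real.exp (C n) / (1 + ‖z‖) ^ 2
  hb : ∀ n z, 0 ≤ z.re → ‖b n z‖ ≤ Real.exp (C n) / (1 + ‖z‖)
  hb' : ∀ n z, 0 ≤ z.re → ‖b n z‖ ≤ C n
  ζ_norm : ∀ n, ‖ζ n‖ ≤ Real.exp (C n)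
  ζ_re : ∀ n, Real.exp (-C n) ≤ (ζ n).re
  hF : ∀ n, F n (ζ n) = F n 0

/-- The error at scale `n`. -/
noncomputable def ε (C : ℕ → ℝ) (n : ℕ) : ℝ :=
  Real.exp (C n) ^ 2 * q C n + 2 * Real.exp (C (n + 1)) * q C (n + 1)

end Pool.Agent.H50.IR
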