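import Pool.Agent.H50.IV.Base
import Pool.Agent.H50.IR.Defs

/-!
# A quantitative fold (R1)
-/

open Complex Set Filter Topology
open Pool.Agent.H51.Becker

namespace Pool.Agent.H50.IR

open Pool.Agent.H50.IV

lemma cos_le' {a : ℝ} (ha : 0 < a) (ha' : a ≤ 1 / 10) : Real.cos a ≤ 1 - a ^ 2 / 5 := by
  have h1 : Real.cos a ≤ 1 - 2 / Real.pi ^ 2 * a ^ 2 := by
    refine Real.cos_le_one_sub_mul_cos_sq ?_
    rw [abs_of_pos ha]
    have := Real.pi_gt_three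
    linarith
  have hpi : Real.pi ^ 2 ≤ 10 := by
    have h2 := Real.pi_lt_d2
    have h3 := Real.pi_pos
    nlinarith
  have hpi0 : 0 < Real.pi ^ 2 := by positivity
  have h2 : (1 : ℝ) / 5 ≤ 2 / Real.pi ^ 2 := by
    rw [div_le_div_iff₀ (by norm_num) hpi0]
    linarith
  have : 1 / 5 * a ^ 2 ≤ 2 / Real.pi ^ 2 * a ^ 2 := by gcongr
  linarith

/-- the two points of the fold, with bounds -/
lemma two_points' {a : ℝ} (ha : 0 < a) (ha' : a ≤ 1 / 10) : ∃ τ₁ τ₂ : ℂ,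
    τ₁ ∈ Strip ∧ τ₂ ∈ Strip ∧ τ₁ ≠ τ₂ ∧ (Lam τ₂).re = -Real.cos a ∧
    a ^ 4 / 100 ≤ (Lam τ₁ - Lam τ₂).re ∧ ‖Lam τ₁ - Lam τ₂‖ ≤ 11 ∧ ‖Lam τ₂‖ ≤ 5 ∧
    ‖(exp τ₁ - exp τ₂) / (τ₁ - τ₂)‖ ≤ a := by
  have hpi3 := Real.pi_gt_three
  have hpi4 := Real.pi_lt_four
  set x : ℝ := a ^ 2 / 10 with hx
  have hx0 : 0 < x := by positivity
  have hxa : x ≤ a / 100 := by rw [hx]; nlinarith
  have hcos5 := cos_le' ha ha'
  have hlog0 : 0 ≤ Real.log (1 + x) := Real.log_nonneg (by linarith)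
  have hlogx : Real.log (1 + x) ≤ x := by
    have := Real.log_le_sub_one_of_pos (x := 1 + x) (by linarith)
    linarith
  have hlow : x * (1 - x) ≤ Real.log (1 + x) := by
    have h1 := Real.one_sub_inv_le_log_of_pos (x := 1 + x) (by linarith)
    have h2 : 1 - (1 + x)⁻¹ = x / (1 + x) := by field_simp; ring
    rw [h2] at h1
    refine le_trans ?_ h1
    rw [le_div_iff₀ (by linarith)]
    nlinarith [mul_pos hx0 (mul_pos hx0 hx0)]
  set τ₁ : ℂ := ⟨Real.log (1 + x), Real.pi - a⟩ with hτ₁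
  set τ₂ : ℂ := ⟨0, -(Real.pi - a)⟩ with hτ₂
  have hcos : Real.cos (Real.pi - a) = -Real.cos a := Real.cos_pi_sub a
  have hsin : Real.sin (Real.pi - a) = Real.sin a := Real.sin_pi_sub a
  have hsa : 0 ≤ Real.sin a := Real.sin_nonneg_of_nonneg_of_le_pi ha.le (by linarith)
  have hsa' : Real.sin a ≤ a := Real.sin_le ha.le
  have hca : -1 ≤ Real.cos a := Real.neg_one_le_cos a
  have hexp1 : Real.exp (Real.log (1 + x)) = 1 + x := Real.exp_log (by linarith)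
  have e1re : (exp τ₁).re = -((1 + x) * Real.cos a) := by
    rw [exp_re]
    show Real.exp (Real.log (1 + x)) * Real.cos (Real.pi - a) = _
    rw [hexp1, hcos]; ring
  have e1im : (exp τ₁).im = (1 + x) * Real.sin a := by
    rw [exp_im]
    show Real.exp (Real.log (1 + x)) * Real.sin (Real.pi - a) = _
    rw [hexp1, hsin]
  have e2re : (exp τ₂).re = -Real.cos a := by
    rw [exp_re]
    show Real.exp 0 * Real.cos (-(Real.pi - a)) = _
    rw [Real.exp_zero, Real.cos_neg, hcos]; ring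
  have e2im : (exp τ₂).im = -Real.sin a := by
    rw [exp_im]
    show Real.exp 0 * Real.sin (-(Real.pi - a)) = _
    rw [Real.exp_zero, Real.sin_neg, hsin]; ring
  have him : (τ₁ - τ₂).im = 2 * (Real.pi - a) := by
    show (Real.pi - a) - (-(Real.pi - a)) = _
    ring
  have himpos : 5 ≤ (τ₁ - τ₂).im := by rw [him]; linarith
  have hnorm : 5 ≤ ‖τ₁ - τ₂‖ := by
    refine himpos.trans ?_
    exact (le_abs_self _).trans (abs_im_le_norm _)
  have hL2 : ‖Lam τ₂‖ ≤ 5 := by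
    have h1 : ‖Lam τ₂‖ ≤ ‖τ₂‖ + ‖exp τ₂‖ := norm_add_le _ _
    have h2 : ‖exp τ₂‖ = 1 := by
      rw [norm_exp]
      show Real.exp 0 = 1
      exact Real.exp_zero
    have h3 : ‖τ₂‖ ≤ |τ₂.re| + |τ₂.im| := norm_le_abs_re_add_abs_im _
    have h4 : |τ₂.re| = 0 := by
      show |(0 : ℝ)| = 0
      exact abs_zero
    have h5 : |τ₂.im| = Real.pi - a := by
      show |-(Real.pi - a)| = _
      rw [abs_neg, abs_of_pos (by linarith)]
    linarith
  have hL1 : ‖Lam τ₁‖ ≤ 6 := by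
    have h1 : ‖Lam τ₁‖ ≤ ‖τ₁‖ + ‖exp τ₁‖ := norm_add_le _ _
    have h2 : ‖exp τ₁‖ = 1 + x := by
      rw [norm_exp]
      show Real.exp (Real.log (1 + x)) = 1 + x
      exact hexp1
    have h3 : ‖τ₁‖ ≤ |τ₁.re| + |τ₁.im| := norm_le_abs_re_add_abs_im _
    have h4 : |τ₁.re| ≤ x := by
      show |Real.log (1 + x)| ≤ x
      rw [abs_of_nonneg hlog0]
      exact hlogx
    have h5 : |τ₁.im| = Real.pi - a := by
      show |Real.pi - a| = _
      rw [abs_of_pos (by linarith)]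
    linarith
  refine ⟨τ₁, τ₂, ?_, ?_, ?_, ?_, ?_, ?_, hL2, ?_⟩
  · show |Real.pi - a| < Real.pi
    rw [abs_of_pos (by linarith)]; linarith
  · show |-(Real.pi - a)| < Real.pi
    rw [abs_neg, abs_of_pos (by linarith)]; linarith
  · intro h
    rw [h, sub_self] at himpos
    simp at himpos
    linarith
  · show (τ₂ + exp τ₂).re = _
    rw [add_re, e2re]
    show (0 : ℝ) + _ = _
    ring
  · show a ^ 4 / 100 ≤ ((τ₁ + exp τ₁) - (τ₂ + exp τ₂)).re
    rw [sub_re, add_re, add_re, e1re, e2re]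
    show a ^ 4 / 100 ≤ (Real.log (1 + x) + _) - ((0 : ℝ) + _)
    have h1 : a ^ 4 / 100 = x * (a ^ 2 / 10) := by rw [hx]; ring
    have h2 : x * (a ^ 2 / 10) + x * Real.cos a ≤ x * (1 - x) := by
      have : a ^ 2 / 10 + Real.cos a ≤ 1 - x := by rw [hx]; linarith
      nlinarith
    rw [h1]
    linarith
  · exact (norm_sub_le _ _).trans (by linarith)
  · rw [norm_div, div_le_iff₀ (by linarith)]
    have h1 : ‖exp τ₁ - exp τ₂‖ ≤ |(exp τ₁ - exp τ₂).re| + |(exp τ₁ - exp τ₂).im| :=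
      norm_le_abs_re_add_abs_im _
    have h2 : |(exp τ₁ - exp τ₂).re| ≤ x := by
      rw [sub_re, e1re, e2re, abs_le]
      constructor <;> nlinarith
    have h3 : |(exp τ₁ - exp τ₂).im| ≤ (2 + x) * a := by
      rw [sub_im, e1im, e2im, abs_le]
      constructor
      · nlinarith [mul_nonneg (by linarith : (0 : ℝ) ≤ 2 + x) ha.le,
          mul_nonneg (by linarith : (0 : ℝ) ≤ 2 + x) hsa]
      · nlinarith [mul_nonneg (by linarith : (0 : ℝ) ≤ 2 + x) (sub_nonneg.2 hsa')]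
    have h4 : a * 5 ≤ a * ‖τ₁ - τ₂‖ := by gcongr
    nlinarith

/-- the logarithmic bound of `L` -/
lemma bound_log {a : ℝ} {e τ : ℂ} {c₁ : ℝ} (ha' : a ≤ 1 / 10) (he : ‖e‖ ≤ a)
    (hre' : -1 < (Lam τ).re) (hc₁ : 0 < c₁) (hc₂ : c₁ ≤ 2) (hA : c₁ ≤ ‖1 + exp τ‖) :
    ‖L e τ‖ ≤ 10 - Real.log (c₁ / 2) := by
  have hv5 := norm_exp_neg_lt hre'
  have hvinv : ‖exp (-τ)‖ * ‖exp τ‖ = 1 := by
    rw [← norm_mul, ← exp_add]; simp
  have hv0 : 0 < ‖exp (-τ)‖ := norm_pos_iff.2 (exp_ne_zero _)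
  have hu2 : ‖-(e * exp (-τ))‖ ≤ 1 / 2 := (norm_e_lt (he.trans ha') hre').le
  have hlogu : ‖log (1 + -(e * exp (-τ)))‖ ≤ 1 := by
    have h1 := Complex.norm_log_one_add_half_le_self hu2
    linarith
  have hneg : Real.log (c₁ / 2) ≤ 0 := Real.log_nonpos (by positivity) (by linarith)
  have hlogv : ‖log (1 + exp (-τ))‖ ≤ 9 - Real.log (c₁ / 2) := by
    rcases le_or_gt ‖exp (-τ)‖ (1 / 2) with hv | hv
    · have h1 := Complex.norm_log_one_add_half_le_self hv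
      linarith
    · have hprod : ‖1 + exp (-τ)‖ = ‖1 + exp τ‖ * ‖exp (-τ)‖ := by
        rw [← norm_mul]
        congr 1
        rw [add_mul, ← exp_add]
        simp [add_comm]
      have hlow : c₁ / 2 ≤ ‖1 + exp (-τ)‖ := by
        rw [hprod]; nlinarith
      have hup : ‖1 + exp (-τ)‖ ≤ 6 := by
        have := norm_add_le (1 : ℂ) (exp (-τ))
        rw [norm_one] at this
        linarith
      have hpos : 0 < ‖1 + exp (-τ)‖ := by
        have : 0 < c₁ / 2 := by positivity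
        linarith
      have hlog : |Real.log ‖1 + exp (-τ)‖| ≤ 5 - Real.log (c₁ / 2) := by
        have h1 := Real.log_le_sub_one_of_pos hpos
        have h2 := Real.log_le_log (by positivity) hlow
        rw [abs_le]
        constructor <;> linarith
      have h6 : ‖log (1 + exp (-τ))‖ ≤
          |(log (1 + exp (-τ))).re| + |(log (1 + exp (-τ))).im| :=
        norm_le_abs_re_add_abs_im _
      rw [log_re, log_im] at h6
      have h7 := abs_arg_le_pi (1 + exp (-τ))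
      have h8 := Real.pi_lt_four
      linarith
  rw [L]
  have h1 := norm_sub_le (log (1 + -(e * exp (-τ)))) (log (1 + exp (-τ)))
  linarith

/-- R1: a quantitative fold. -/
theorem base_quant : ∃ C₀ : ℝ, 2 ≤ C₀ ∧ ∀ C : ℝ, C₀ ≤ C → ∃ (β φ g : ℂ → ℂ) (ζ : ℂ),
    Real.exp (-C) ≤ ζ.re ∧ ‖ζ‖ ≤ Real.exp C ∧
    (∀ z, 0 ≤ z.re → HasDerivAt β (φ z) z) ∧
    (∀ z, 0 ≤ z.re → HasDerivAt g (exp (β z)) z) ∧
    (∀ z, 0 ≤ z.re → 2 * z.re * ‖φ z‖ ≤ 1 + Real.exp (-C / 6)) ∧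
    (∀ z, 0 ≤ z.re → ‖φ z‖ ≤ Real.exp C / (1 + ‖z‖) ^ 2) ∧
    (∀ z, 0 ≤ z.re → ‖β z‖ ≤ Real.exp C / (1 + ‖z‖)) ∧
    (∀ z, 0 ≤ z.re → ‖β z‖ ≤ C) ∧ g ζ = g 0 := by
  refine ⟨600, by norm_num, fun C hC => ?_⟩
  -- the parameter `a`
  set a : ℝ := Real.exp (-C / 5) with hadef
  have ha : 0 < a := Real.exp_pos _
  set A : ℝ := Real.exp (C / 5) with hAdef
  have hA0 : 0 < A := Real.exp_pos _
  have hAa : a * A = 1 := by
    rw [hadef, hAdef, ← Real.exp_add]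
    have : -C / 5 + C / 5 = 0 := by ring
    rw [this, Real.exp_zero]
  have hA100 : 100 ≤ A := by
    have := Real.add_one_le_exp (C / 5)
    rw [← hAdef] at this
    linarith
  have ha100 : a ≤ 1 / 100 := by
    rw [le_div_iff₀ (by norm_num)]
    nlinarith
  have ha' : a ≤ 1 / 10 := by linarith
  have hexpC : Real.exp C = A ^ 5 := by
    rw [hAdef, ← Real.exp_nat_mul]
    congr 1
    push_cast
    ring
  set r : ℝ := 1 + Real.exp (-C / 6) with hr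
  have hr12 : 12 * a ≤ Real.exp (-C / 6) := by
    have h1 : a = Real.exp (-C / 6) * Real.exp (-(C / 30)) := by
      rw [hadef, ← Real.exp_add]
      congr 1
      ring
    have h2 : 12 * Real.exp (-(C / 30)) ≤ 1 := by
      rw [Real.exp_neg]
      have h3 := Real.add_one_le_exp (C / 30)
      have h4 : (12 : ℝ) ≤ Real.exp (C / 30) := by linarith
      rw [← div_eq_mul_inv, div_le_one (Real.exp_pos _)]
      exact h4
    have h3 := Real.exp_pos (-C / 6)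
    rw [h1]
    nlinarith
  have hrpos : 1 < r := by
    have := Real.exp_pos (-C / 6)
    rw [hr]; linarith
  have hr2 : r ≤ 2 := by
    have h1 : Real.exp (-C / 6) ≤ 1 := by
      rw [Real.exp_le_one_iff]
      linarith
    rw [hr]; linarith
  have har : 1 + a ≤ r * (1 - 5 * a) := by
    have h1 : 1 + 12 * a ≤ r := by rw [hr]; linarith
    nlinarith
  obtain ⟨τ₁, τ₂, hτ₁, hτ₂, hne, hP2, hζ, hζn, hP2n, hen⟩ := two_points' ha ha'
  obtain ⟨-, hcos⟩ := cos_bound ha ha'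
  have hcos5 := cos_le' ha ha'
  set e : ℂ := (exp τ₁ - exp τ₂) / (τ₁ - τ₂) with he
  set P₂ : ℂ := Lam τ₂ with hP₂
  have he10 : ‖e‖ ≤ 1 / 10 := hen.trans ha'
  set c₁ : ℝ := Real.sqrt (2 * (1 - Real.cos a)) with hc₁
  have hc₁pos : 0 < c₁ := Real.sqrt_pos.2 (by linarith)
  have hc₁sq : c₁ ^ 2 = 2 * (1 - Real.cos a) := Real.sq_sqrt (by linarith)
  have hc₁low : a / 2 ≤ c₁ := by
    refine Real.le_sqrt_of_sq_le ?_
    nlinarith
  have hc₁up : c₁ ≤ 2 := by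
    refine le_of_sq_le_sq ?_ (by norm_num)
    rw [hc₁sq]
    have := Real.neg_one_le_cos a
    linarith
  have hinv : 1 / c₁ ≤ 2 * A := by
    rw [div_le_iff₀ hc₁pos]
    nlinarith
  set c₂ : ℝ := 2 + 14 / c₁ with hc₂
  have hc₂pos : 0 < c₂ := by positivity
  have hc₂up : c₂ ≤ 30 * A := by
    have : 14 / c₁ = 14 * (1 / c₁) := by ring
    rw [hc₂, this]
    linarith
  have hK1 : 186 + 16 * (9 + 2 / c₁) ≤ A ^ 2 := by
    have : 2 / c₁ = 2 * (1 / c₁) := by ring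
    rw [this]
    nlinarith
  have hK0 : 0 < 186 + 16 * (9 + 2 / c₁) := by positivity
  have hA2 : 0 < A ^ 2 := by positivity
  have hA25 : 1801 * A ^ 2 ≤ A ^ 5 := by
    have h1 : (1801 : ℝ) ≤ A ^ 3 := by
      calc (1801 : ℝ) ≤ 100 ^ 3 := by norm_num
        _ ≤ A ^ 3 := by gcongr
    have h2 : A ^ 5 = A ^ 3 * A ^ 2 := by ring
    rw [h2]
    gcongr
  have hP : ∀ z : ℂ, 0 ≤ z.re → -Real.cos a ≤ (z + P₂).re := by
    intro z hz
    rw [add_re, hP2]; linarith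
  have hP' : ∀ z : ℂ, 0 ≤ z.re → -1 < (z + P₂).re := by
    intro z hz
    have := hP z hz
    linarith
  have hb : ∀ z : ℂ, 0 ≤ z.re → c₁ ≤ ‖1 + exp (inv (z + P₂))‖ ∧
      1 + ‖z‖ ≤ c₂ * ‖1 + exp (inv (z + P₂))‖ ∧
      ‖L e (inv (z + P₂))‖ ≤ (186 + 16 * (9 + 2 / c₁)) / (1 + ‖z‖) ∧
      1 - 5 * a ≤ ‖1 + -(e * exp (-inv (z + P₂)))‖ := by
    intro z hz
    have hL : Lam (inv (z + P₂)) = z + P₂ := Lam_inv (hP' z hz)
    refine bounds ha ha' hen (inv_mem (hP' z hz)) ?_ hc₁pos hc₁sq.le ?_ (norm_nonneg z)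
    · rw [hL]; exact hP z hz
    · rw [hL]
      have h1 : ‖z‖ ≤ ‖z + P₂‖ + ‖P₂‖ := by
        calc ‖z‖ = ‖(z + P₂) - P₂‖ := by ring_nf
          _ ≤ _ := norm_sub_le _ _
      show ‖z‖ ≤ ‖z + P₂‖ + 5
      linarith
  have hphi : ∀ z : ℂ, 0 ≤ z.re → ‖phi e (z + P₂)‖ * ‖1 + exp (inv (z + P₂))‖ ^ 2 ≤ r := by
    intro z hz
    obtain ⟨h1, -, -, h4⟩ := hb z hz
    have hA : 0 < ‖1 + exp (inv (z + P₂))‖ := lt_of_lt_of_le hc₁pos h1
    have h5a : 0 < 1 - 5 * a := by linarith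
    have hd : 0 < ‖1 + -(e * exp (-inv (z + P₂)))‖ := lt_of_lt_of_le h5a h4
    rw [phi, norm_div, norm_mul, norm_pow]
    have h6 : ‖1 + e‖ / (‖1 + -(e * exp (-inv (z + P₂)))‖ * ‖1 + exp (inv (z + P₂))‖ ^ 2) *
        ‖1 + exp (inv (z + P₂))‖ ^ 2 = ‖1 + e‖ / ‖1 + -(e * exp (-inv (z + P₂)))‖ := by
      field_simp
    rw [h6, div_le_iff₀ hd]
    have h7 : ‖1 + e‖ ≤ 1 + a := by
      have := norm_add_le (1 : ℂ) e
      rw [norm_one] at this
      linarith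
    have h8 : r * (1 - 5 * a) ≤ r * ‖1 + -(e * exp (-inv (z + P₂)))‖ := by gcongr
    linarith
  refine ⟨fun z => L e (inv (z + P₂)), fun z => phi e (z + P₂), fun z => fold e (z + P₂),
    Lam τ₁ - P₂, ?_, ?_, ?_, ?_, ?_, ?_, ?_, ?_, ?_⟩
  · refine le_trans ?_ hζ
    have h1 : Real.exp (-C) * A ^ 5 = 1 := by
      rw [← hexpC, ← Real.exp_add, neg_add_cancel, Real.exp_zero]
    have h2 : a ^ 4 * A ^ 4 = 1 := by
      rw [← mul_pow, hAa, one_pow]
    have h3 : 0 < A ^ 4 := by positivity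
    have h4 : 0 < Real.exp (-C) := Real.exp_pos _
    have h5 : Real.exp (-C) * A ^ 4 * 100 ≤ 1 := by
      calc Real.exp (-C) * A ^ 4 * 100 ≤ Real.exp (-C) * A ^ 4 * A := by gcongr
        _ = Real.exp (-C) * A ^ 5 := by ring
        _ = 1 := h1
    rw [le_div_iff₀ (by norm_num : (0 : ℝ) < 100)]
    have h6 : Real.exp (-C) * 100 * A ^ 4 ≤ a ^ 4 * A ^ 4 := by
      rw [h2]; linarith
    exact le_of_mul_le_mul_right h6 h3
  · refine hζn.trans ?_
    have := Real.add_one_le_exp C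
    linarith
  · intro z hz
    exact (hasDerivAt_L he10 (hP' z hz)).comp_add_const z P₂
  · intro z hz
    exact (hasDerivAt_fold he10 (hP' z hz)).comp_add_const z P₂
  · intro z hz
    have h1 := hphi z hz
    have hL : Lam (inv (z + P₂)) = z + P₂ := Lam_inv (hP' z hz)
    have h2 := two_mul_le (inv (z + P₂))
    rw [hL] at h2
    have h3 : (z + P₂).re = z.re - Real.cos a := by rw [add_re, hP2]; ring
    rw [h3] at h2
    have h4 : 2 * z.re ≤ ‖1 + exp (inv (z + P₂))‖ ^ 2 := by linarith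
    show 2 * z.re * ‖phi e (z + P₂)‖ ≤ r
    have h5 : 2 * z.re * ‖phi e (z + P₂)‖ ≤
        ‖1 + exp (inv (z + P₂))‖ ^ 2 * ‖phi e (z + P₂)‖ := by gcongr
    linarith
  · intro z hz
    have h1 := hphi z hz
    obtain ⟨-, h2, -, -⟩ := hb z hz
    show ‖phi e (z + P₂)‖ ≤ _
    have hz1 : 0 < (1 + ‖z‖) ^ 2 := by positivity
    rw [le_div_iff₀ hz1, hexpC]
    have h3 : (1 + ‖z‖) ^ 2 ≤ (c₂ * ‖1 + exp (inv (z + P₂))‖) ^ 2 := by gcongr
    have h4 : ‖phi e (z + P₂)‖ * (1 + ‖z‖) ^ 2 ≤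
        ‖phi e (z + P₂)‖ * (c₂ * ‖1 + exp (inv (z + P₂))‖) ^ 2 := by gcongr
    have h5 : ‖phi e (z + P₂)‖ * (c₂ * ‖1 + exp (inv (z + P₂))‖) ^ 2 =
        c₂ ^ 2 * (‖phi e (z + P₂)‖ * ‖1 + exp (inv (z + P₂))‖ ^ 2) := by ring
    have h6 : c₂ ^ 2 * (‖phi e (z + P₂)‖ * ‖1 + exp (inv (z + P₂))‖ ^ 2) ≤
        (30 * A) ^ 2 * 2 := by
      gcongr
      exact h1.trans hr2
    have h7 : (30 * A) ^ 2 * 2 = 1800 * A ^ 2 := by ring
    linarith
  · intro z hz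
    obtain ⟨-, -, h3, -⟩ := hb z hz
    refine h3.trans ?_
    rw [hexpC]
    exact div_le_div_of_nonneg_right (by linarith) (by positivity)
  · intro z hz
    obtain ⟨h1, -, -, -⟩ := hb z hz
    have hL : Lam (inv (z + P₂)) = z + P₂ := Lam_inv (hP' z hz)
    have h2 : ‖L e (inv (z + P₂))‖ ≤ 10 - Real.log (c₁ / 2) :=
      bound_log ha' hen (by rw [hL]; exact hP' z hz) hc₁pos hc₁up h1
    have h3 : Real.log (a / 4) ≤ Real.log (c₁ / 2) :=
      Real.log_le_log (by positivity) (by linarith)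
    have h4 : Real.log (a / 4) = -C / 5 - Real.log 4 := by
      rw [Real.log_div ha.ne' (by norm_num), hadef, Real.log_exp]
    have h5 : Real.log 4 ≤ 3 := by
      have := Real.log_le_sub_one_of_pos (x := 4) (by norm_num)
      linarith
    show ‖L e (inv (z + P₂))‖ ≤ C
    linarith
  · show fold e (Lam τ₁ - P₂ + P₂) = fold e (0 + P₂)
    rw [sub_add_cancel, zero_add, hP₂, fold, fold, inv_Lam hτ₁, inv_Lam hτ₂]
    have h1 : τ₁ - τ₂ ≠ 0 := sub_ne_zero.2 hne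
    have h2 : e * (τ₁ - τ₂) = exp τ₁ - exp τ₂ := by
      rw [he]; field_simp
    linear_combination -h2

end Pool.Agent.H50.IR
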