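import Mathlib
import Pool.Agent.H50.IR.Defs
import Pool.Agent.H50.IV.Scales

/-! # Elementary inequalities for the scales, with `exp (C n)` -/

open Complex Set Filter Topology

namespace Pool.Agent.H50.IR

open Pool.Agent.H50.IV

section scales

variable {C : ℕ → ℝ} (hge : ∀ n : ℕ, (n : ℝ) + 2 ≤ C n) (hstep : ∀ n : ℕ, C n + 1 ≤ C (n + 1))

lemma one_le_exp {x : ℝ} (hx : 0 ≤ x) : 1 ≤ Real.exp x := by
  have := Real.add_one_le_exp x
  linarith

lemma exp_neg_twenty_le : Real.exp (-20) ≤ 1 / 1000 := by
  have h1 : (2 : ℝ) ≤ Real.exp 1 := by have := Real.add_one_le_exp (1 : ℝ); linarith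
  have h2 : (1000 : ℝ) ≤ Real.exp 20 := by
    calc (1000 : ℝ) ≤ 2 ^ 20 := by norm_num
      _ ≤ Real.exp 1 ^ 20 := by gcongr
      _ = Real.exp 20 := by rw [← Real.exp_nat_mul]; norm_num
  rw [Real.exp_neg, ← one_div]
  exact one_div_le_one_div_of_le (by norm_num) h2

include hge in
/-- `E^k q` is small. -/
lemma exp_pow_mul_q_le (n k : ℕ) (hk : k ≤ 10) : Real.exp (C n) ^ k * q C n ≤ 1 / 1000 := by
  have h2 := two_le hge n
  have h1 : 1 ≤ Real.exp (C n) := one_le_exp (by linarith)
  have hq := q_pos (C := C) n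
  calc Real.exp (C n) ^ k * q C n ≤ Real.exp (C n) ^ 10 * q C n := by
        gcongr
    _ = Real.exp (-10 * C n) := by
        unfold q
        rw [← Real.exp_nat_mul, ← Real.exp_add]
        congr 1
        push_cast
        ring
    _ ≤ Real.exp (-20) := Real.exp_le_exp.2 (by linarith)
    _ ≤ 1 / 1000 := exp_neg_twenty_le

include hge in
lemma exp_mul_q_le (n : ℕ) : Real.exp (C n) * q C n ≤ 1 / 1000 := by
  have := exp_pow_mul_q_le hge n 1 (by norm_num)
  simpa using this

include hge in
lemma Es_succ (n : ℕ) : Real.exp (C (n + 1)) * s C (n + 1) ≤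
    (1 / 2) * (Real.exp (C n) * s C n) := by
  rw [s_succ]
  have h1 := exp_mul_q_le hge (n + 1)
  have h2 := q_le hge (n + 1)
  have h3 : 1 ≤ Real.exp (C n) := one_le_exp (by have := two_le hge n; linarith)
  have hs := s_pos (C := C) n
  have hq := q_pos (C := C) (n + 1)
  calc Real.exp (C (n + 1)) * (q C (n + 1) ^ 2 * s C n) =
        (Real.exp (C (n + 1)) * q C (n + 1)) * q C (n + 1) * s C n := by
        ring
    _ ≤ (1 / 1000) * (1 / 1000) * s C n := by gcongr
    _ ≤ (1 / 2) * (Real.exp (C n) * s C n) := by nlinarith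

include hge in
lemma Es_add (n k : ℕ) : Real.exp (C (k + n)) * s C (k + n) ≤
    (1 / 2) ^ k * (Real.exp (C n) * s C n) := by
  induction k with
  | zero => simp
  | succ k ih =>
    have h := Es_succ hge (k + n)
    have e : k + 1 + n = k + n + 1 := by ring
    rw [e, pow_succ]
    linarith

include hge in
lemma summable_Es (n : ℕ) : Summable fun k => Real.exp (C (k + n)) * s C (k + n) := by
  refine Summable.of_nonneg_of_le (fun k => ?_) (Es_add hge n)
    ((summable_geometric_two).mul_right _)
  exact mul_nonneg (Real.exp_pos _).le (s_pos _).le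

include hge in
lemma tsum_Es_le (n : ℕ) : ∑' k, Real.exp (C (k + n)) * s C (k + n) ≤
    2 * (Real.exp (C n) * s C n) := by
  calc ∑' k, Real.exp (C (k + n)) * s C (k + n) ≤
        ∑' k : ℕ, (1 / 2) ^ k * (Real.exp (C n) * s C n) :=
        Summable.tsum_le_tsum (Es_add hge n) (summable_Es hge n)
          ((summable_geometric_two).mul_right _)
    _ = 2 * (Real.exp (C n) * s C n) := by rw [tsum_mul_right, tsum_geometric_two]

include hge hstep in
lemma head_le (n : ℕ) : ∑ m ∈ Finset.range (n + 1), Real.exp (C m) / s C m ≤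
    Real.exp (C (n + 1)) ^ 2 / s C n := by
  have hs := s_pos (C := C) n
  calc ∑ m ∈ Finset.range (n + 1), Real.exp (C m) / s C m
      ≤ ∑ m ∈ Finset.range (n + 1), Real.exp (C (n + 1)) / s C n := by
        apply Finset.sum_le_sum
        intro m hm
        have hm' : m ≤ n := Nat.lt_succ_iff.1 (Finset.mem_range.1 hm)
        have h1 : C m ≤ C (n + 1) := C_mono hstep (by omega)
        have h2 : s C n ≤ s C m := s_anti hge hm'
        exact div_le_div₀ (Real.exp_pos _).le (Real.exp_le_exp.2 h1) hs h2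
    _ = (n + 1) * (Real.exp (C (n + 1)) / s C n) := by simp
    _ ≤ Real.exp (C (n + 1)) * (Real.exp (C (n + 1)) / s C n) := by
        have h1 := hge (n + 1)
        push_cast at h1
        have h2 : 0 ≤ Real.exp (C (n + 1)) / s C n := div_nonneg (Real.exp_pos _).le hs.le
        apply mul_le_mul_of_nonneg_right _ h2
        have := Real.add_one_le_exp (C (n + 1))
        linarith
    _ = Real.exp (C (n + 1)) ^ 2 / s C n := by ring

end scales

end Pool.Agent.H50.IR
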