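import Mathlib
import Pool.Agent.H50.IR.Scales
import Pool.Agent.H50.IV.Sum

/-! # The sum over the scales, quantitative form -/

open Complex Set Filter Topology

namespace Pool.Agent.H50.IR

open Pool.Agent.H50.IV

section

variable {b φ F : ℕ → ℂ → ℂ} {ζ : ℕ → ℂ} {C A : ℕ → ℝ} (D : Data b φ F ζ C A)

include D

/-- Small scales. -/
lemma small_le {z : ℂ} (hz : 0 < z.re) (m : ℕ) :
    ‖b m (z / (s C m : ℂ))‖ ≤ Real.exp (C m) * s C m / ‖z‖ := by
  have hz0 : 0 < ‖z‖ := lt_of_lt_of_le hz ((le_abs_self _).trans (abs_re_le_norm z))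
  have hs := s_pos (C := C) m
  have hC := Real.exp_pos (C m)
  refine (D.hb m _ (re_nonneg hz.le m)).trans ?_
  rw [norm_div' _ hs]
  rw [div_le_div_iff₀ (by positivity) hz0]
  have : Real.exp (C m) * s C m * (1 + ‖z‖ / s C m) = Real.exp (C m) * s C m + Real.exp (C m) * ‖z‖ := by
    field_simp
  rw [this]
  have : 0 ≤ Real.exp (C m) * s C m := by positivity
  linarith

/-- Large scales. -/
lemma large_le {z : ℂ} (hz : 0 < z.re) (m : ℕ) :
    ‖b m (z / (s C m : ℂ)) - b m 0‖ ≤ Real.exp (C m) / s C m * ‖z‖ := by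
  have hs := s_pos (C := C) m
  have hC := Real.exp_pos (C m)
  have hconv : Convex ℝ {w : ℂ | 0 ≤ w.re} := convex_halfSpace_re_ge 0
  have h := hconv.norm_image_sub_le_of_norm_hasDerivWithin_le (f := b m) (f' := φ m)
    (C := Real.exp (C m))
    (x := 0) (y := z / (s C m : ℂ))
    (fun w hw => (D.db m w hw).hasDerivWithinAt) (fun w hw => ?_)
    (show (0 : ℝ) ≤ (0 : ℂ).re from le_of_eq rfl) (re_nonneg hz.le m)
  · rw [sub_zero, norm_div' _ hs] at h
    calc ‖b m (z / (s C m : ℂ)) - b m 0‖ ≤ Real.exp (C m) * (‖z‖ / s C m) := h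
      _ = Real.exp (C m) / s C m * ‖z‖ := by ring
  · refine (D.hφ m w hw).trans ?_
    rw [div_le_iff₀ (by positivity)]
    have : 1 ≤ (1 + ‖w‖) ^ 2 := one_le_pow₀ (by linarith [norm_nonneg w])
    nlinarith

lemma summable_b {z : ℂ} (hz : 0 < z.re) : Summable fun m => b m (z / (s C m : ℂ)) := by
  refine Summable.of_norm_bounded (g := fun m => Real.exp (C m) * s C m / ‖z‖) ?_ (small_le D hz)
  simpa using (summable_Es D.C_ge 0).div_const ‖z‖

lemma tail_le (n : ℕ) {z : ℂ} (hz : z ∈ Reg C n) :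
    (∑' i, Real.exp (C (i + (n + 1))) * s C (i + (n + 1))) / ‖z‖ ≤ 2 * Real.exp (C (n + 1)) * q C (n + 1) := by
  obtain ⟨h0, h1, -⟩ := hz
  have hx := x_pos (C := C) n
  have hz0 : 0 < ‖z‖ := lt_of_lt_of_le hx h1
  have hs := s_pos (C := C) (n + 1)
  have hq := q_pos (C := C) (n + 1)
  have hC := Real.exp_pos (C (n + 1))
  calc (∑' i, Real.exp (C (i + (n + 1))) * s C (i + (n + 1))) / ‖z‖
      ≤ (2 * (Real.exp (C (n + 1)) * s C (n + 1))) / ‖z‖ := by
        gcongr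
        exact tsum_Es_le D.C_ge (n + 1)
    _ ≤ (2 * (Real.exp (C (n + 1)) * s C (n + 1))) / x C n := by gcongr
    _ = 2 * Real.exp (C (n + 1)) * q C (n + 1) := by
        rw [← x_eq' n]; field_simp

lemma head_le' (n : ℕ) {z : ℂ} (hz : z ∈ Reg C n) :
    (∑ m ∈ Finset.range n, Real.exp (C m) / s C m) * ‖z‖ ≤ Real.exp (C n) ^ 2 * q C n := by
  obtain ⟨h0, h1, h2⟩ := hz
  cases n with
  | zero =>
    simp only [Finset.range_zero, Finset.sum_empty, zero_mul]
    have := q_pos (C := C) 0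
    positivity
  | succ n =>
    have h3 := h2 n rfl
    have h4 := head_le D.C_ge D.C_step n
    have hs := s_pos (C := C) n
    have hq := q_pos (C := C) (n + 1)
    calc (∑ m ∈ Finset.range (n + 1), Real.exp (C m) / s C m) * ‖z‖
        ≤ (Real.exp (C (n + 1)) ^ 2 / s C n) * x C n := by
          gcongr
      _ = Real.exp (C (n + 1)) ^ 2 * q C (n + 1) := by
          rw [x_eq]; field_simp

theorem region {n : ℕ} {z : ℂ} (hz : z ∈ Reg C n) :
    ‖B b C z - K b n - b n (z / (s C n : ℂ))‖ ≤ ε C n := by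
  have h0 : 0 < z.re := hz.1
  have hsum := summable_b D h0
  have h1 := hsum.sum_add_tsum_nat_add (n + 1)
  rw [Finset.sum_range_succ] at h1
  have e : B b C z - K b n - b n (z / (s C n : ℂ)) =
      (∑ m ∈ Finset.range n, (b m (z / (s C m : ℂ)) - b m 0)) +
        ∑' i, b (i + (n + 1)) (z / (s C (i + (n + 1)) : ℂ)) := by
    rw [B, ← h1, K, Finset.sum_sub_distrib]
    ring
  rw [e, ε]
  refine (norm_add_le _ _).trans (add_le_add ?_ ?_)
  · refine (norm_sum_le _ _).trans ((Finset.sum_le_sum fun m _ => large_le D h0 m).trans ?_)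
    rw [← Finset.sum_mul]
    exact head_le' D n hz
  · have hs : Summable fun i => Real.exp (C (i + (n + 1))) * s C (i + (n + 1)) / ‖z‖ :=
      (summable_Es D.C_ge (n + 1)).div_const _
    refine (tsum_of_norm_bounded hs.hasSum fun i => small_le D h0 _).trans ?_
    rw [tsum_div_const]
    exact tail_le D n hz

/-- Derivative of a term. -/
lemma hasDerivAt_term (m : ℕ) {z : ℂ} (hz : 0 < z.re) :
    HasDerivAt (fun y => b m (y / (s C m : ℂ))) (φ m (z / (s C m : ℂ)) / (s C m : ℂ)) z := by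
  have h1 : HasDerivAt (fun y : ℂ => y / (s C m : ℂ)) (1 / (s C m : ℂ)) z :=
    (hasDerivAt_id z).div_const _
  have h2 := (D.db m _ (re_nonneg (C := C) hz.le m)).comp z h1
  refine h2.congr_deriv ?_
  ring

/-- Derivative bounds, small scales. -/
lemma deriv_small_le {z : ℂ} (hz : 0 < z.re) (m : ℕ) :
    ‖φ m (z / (s C m : ℂ)) / (s C m : ℂ)‖ ≤ Real.exp (C m) * s C m / ‖z‖ ^ 2 := by
  have hz0 : 0 < ‖z‖ := lt_of_lt_of_le hz ((le_abs_self _).trans (abs_re_le_norm z))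
  have hs := s_pos (C := C) m
  have hC := Real.exp_pos (C m)
  rw [norm_div' _ hs, div_le_iff₀ hs]
  refine (D.hφ m _ (re_nonneg hz.le m)).trans ?_
  rw [norm_div' _ hs, div_le_iff₀ (by positivity)]
  have e : Real.exp (C m) * s C m / ‖z‖ ^ 2 * s C m * (1 + ‖z‖ / s C m) ^ 2 =
      Real.exp (C m) * ((s C m + ‖z‖) / ‖z‖) ^ 2 := by
    field_simp
  rw [e]
  have : 1 ≤ ((s C m + ‖z‖) / ‖z‖) ^ 2 := by
    apply one_le_pow₀
    rw [le_div_iff₀ hz0]
    linarith
  nlinarith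

/-- Derivative bounds, large scales. -/
lemma deriv_large_le {z : ℂ} (hz : 0 < z.re) (m : ℕ) :
    ‖φ m (z / (s C m : ℂ)) / (s C m : ℂ)‖ ≤ Real.exp (C m) / s C m := by
  have hs := s_pos (C := C) m
  have hC := Real.exp_pos (C m)
  rw [norm_div' _ hs]
  gcongr
  refine (D.hφ m _ (re_nonneg hz.le m)).trans ?_
  rw [div_le_iff₀ (by positivity)]
  have : 1 ≤ (1 + ‖z / (s C m : ℂ)‖) ^ 2 := one_le_pow₀ (by linarith [norm_nonneg (z / (s C m : ℂ))])
  nlinarith

lemma deriv_mid_le {z : ℂ} (hz : 0 < z.re) (m : ℕ) :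
    2 * z.re * ‖φ m (z / (s C m : ℂ)) / (s C m : ℂ)‖ ≤ A m := by
  have hs := s_pos (C := C) m
  have h := D.hA m _ (re_nonneg (C := C) hz.le m)
  rw [re_div] at h
  rw [norm_div' _ hs]
  calc 2 * z.re * (‖φ m (z / (s C m : ℂ))‖ / s C m) =
      2 * (z.re / s C m) * ‖φ m (z / (s C m : ℂ))‖ := by ring
    _ ≤ A m := h

lemma summable_deriv {z : ℂ} (hz : 0 < z.re) :
    Summable fun m => φ m (z / (s C m : ℂ)) / (s C m : ℂ) := by
  refine Summable.of_norm_bounded (g := fun m => Real.exp (C m) * s C m / ‖z‖ ^ 2) ?_ (deriv_small_le D hz)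
  simpa using (summable_Es D.C_ge 0).div_const (‖z‖ ^ 2)

theorem hasDerivAt_B {z : ℂ} (hz : 0 < z.re) : HasDerivAt (B b C) (B' φ C z) z := by
  have hz0 : 0 < ‖z‖ := lt_of_lt_of_le hz ((le_abs_self _).trans (abs_re_le_norm z))
  have hball : ∀ y ∈ Metric.ball z (z.re / 2), 0 < y.re ∧ ‖z‖ / 2 ≤ ‖y‖ := by
    intro y hy
    rw [Metric.mem_ball, dist_eq_norm] at hy
    constructor
    · have h1 := (abs_le.1 (abs_re_le_norm (y - z))).1
      rw [sub_re] at h1
      linarith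
    · have h1 : ‖z‖ ≤ ‖y‖ + ‖y - z‖ := by
        calc ‖z‖ = ‖y - (y - z)‖ := by ring_nf
          _ ≤ ‖y‖ + ‖y - z‖ := norm_sub_le _ _
      have h2 : z.re ≤ ‖z‖ := (le_abs_self _).trans (abs_re_le_norm z)
      linarith
  have hmem : z ∈ Metric.ball z (z.re / 2) := Metric.mem_ball_self (by linarith)
  have hu : Summable fun m => Real.exp (C m) * s C m / (‖z‖ / 2) ^ 2 := by
    simpa using (summable_Es D.C_ge 0).div_const ((‖z‖ / 2) ^ 2)
  have hg : ∀ m : ℕ, ∀ y ∈ Metric.ball z (z.re / 2),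
      HasDerivAt ((fun (m : ℕ) (y : ℂ) => b m (y / (s C m : ℂ))) m)
        ((fun (m : ℕ) (y : ℂ) => φ m (y / (s C m : ℂ)) / (s C m : ℂ)) m y) y :=
    fun m y hy => hasDerivAt_term D m (hball y hy).1
  have hg' : ∀ m : ℕ, ∀ y ∈ Metric.ball z (z.re / 2),
      ‖(fun (m : ℕ) (y : ℂ) => φ m (y / (s C m : ℂ)) / (s C m : ℂ)) m y‖ ≤
        Real.exp (C m) * s C m / (‖z‖ / 2) ^ 2 := by
    intro m y hy
    obtain ⟨h1, h2⟩ := hball y hy
    refine (deriv_small_le D h1 m).trans ?_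
    have hs := s_pos (C := C) m
    have hC := Real.exp_pos (C m)
    have : 0 < ‖z‖ / 2 := by linarith
    gcongr
  have hfin := hasDerivAt_tsum_of_isPreconnected hu Metric.isOpen_ball
    (convex_ball z (z.re / 2)).isPreconnected hg hg' hmem (summable_b D hz) hmem
  exact hfin

theorem norm_B' {n : ℕ} {z : ℂ} (hz : z ∈ Reg C n) :
    2 * z.re * ‖B' φ C z‖ ≤ A n + 2 * ε C n := by
  have h0 : 0 < z.re := hz.1
  have hz0 : 0 < ‖z‖ := lt_of_lt_of_le h0 ((le_abs_self _).trans (abs_re_le_norm z))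
  have hre : z.re ≤ ‖z‖ := (le_abs_self _).trans (abs_re_le_norm z)
  have hsum := summable_deriv D h0
  have h1 := hsum.sum_add_tsum_nat_add (n + 1)
  rw [Finset.sum_range_succ] at h1
  rw [B', ← h1]
  have hs : Summable fun i => Real.exp (C (i + (n + 1))) * s C (i + (n + 1)) / ‖z‖ ^ 2 :=
    (summable_Es D.C_ge (n + 1)).div_const _
  have n1 : ‖∑ m ∈ Finset.range n, φ m (z / (s C m : ℂ)) / (s C m : ℂ)‖ ≤
      ∑ m ∈ Finset.range n, Real.exp (C m) / s C m :=
    (norm_sum_le _ _).trans (Finset.sum_le_sum fun m _ => deriv_large_le D h0 m)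
  have n2 : ‖∑' i, φ (i + (n + 1)) (z / (s C (i + (n + 1)) : ℂ)) / (s C (i + (n + 1)) : ℂ)‖ ≤
      (∑' i, Real.exp (C (i + (n + 1))) * s C (i + (n + 1))) / ‖z‖ ^ 2 := by
    refine (tsum_of_norm_bounded hs.hasSum fun i => deriv_small_le D h0 _).trans ?_
    rw [tsum_div_const]
  have n3 := deriv_mid_le D h0 n
  have m1 : 2 * z.re * ∑ m ∈ Finset.range n, Real.exp (C m) / s C m ≤ 2 * (Real.exp (C n) ^ 2 * q C n) := by
    have hh := head_le' D n hz
    have hnn : 0 ≤ ∑ m ∈ Finset.range n, Real.exp (C m) / s C m :=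
      Finset.sum_nonneg fun m _ => div_nonneg (Real.exp_pos (C m)).le (s_pos m).le
    have : z.re * ∑ m ∈ Finset.range n, Real.exp (C m) / s C m ≤
        (∑ m ∈ Finset.range n, Real.exp (C m) / s C m) * ‖z‖ := by
      rw [mul_comm]
      gcongr
    linarith
  have m2 : 2 * z.re * ((∑' i, Real.exp (C (i + (n + 1))) * s C (i + (n + 1))) / ‖z‖ ^ 2) ≤
      2 * (2 * Real.exp (C (n + 1)) * q C (n + 1)) := by
    have hh := tail_le D n hz
    have hnn : 0 ≤ ∑' i, Real.exp (C (i + (n + 1))) * s C (i + (n + 1)) :=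
      tsum_nonneg fun i => mul_nonneg (Real.exp_pos _).le (s_pos _).le
    have e1 : z.re * ((∑' i, Real.exp (C (i + (n + 1))) * s C (i + (n + 1))) / ‖z‖ ^ 2) ≤
        (∑' i, Real.exp (C (i + (n + 1))) * s C (i + (n + 1))) / ‖z‖ := by
      calc z.re * ((∑' i, Real.exp (C (i + (n + 1))) * s C (i + (n + 1))) / ‖z‖ ^ 2)
          ≤ ‖z‖ * ((∑' i, Real.exp (C (i + (n + 1))) * s C (i + (n + 1))) / ‖z‖ ^ 2) := by gcongr
        _ = (∑' i, Real.exp (C (i + (n + 1))) * s C (i + (n + 1))) / ‖z‖ := by field_simp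
    linarith
  have h2z : 0 ≤ 2 * z.re := by linarith
  calc 2 * z.re * ‖∑ m ∈ Finset.range n, φ m (z / (s C m : ℂ)) / (s C m : ℂ) +
        φ n (z / (s C n : ℂ)) / (s C n : ℂ) +
        ∑' i, φ (i + (n + 1)) (z / (s C (i + (n + 1)) : ℂ)) / (s C (i + (n + 1)) : ℂ)‖
      ≤ 2 * z.re * (∑ m ∈ Finset.range n, Real.exp (C m) / s C m + ‖φ n (z / (s C n : ℂ)) / (s C n : ℂ)‖ +
        (∑' i, Real.exp (C (i + (n + 1))) * s C (i + (n + 1))) / ‖z‖ ^ 2) := by
        gcongr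
        refine (norm_add_le _ _).trans (add_le_add ((norm_add_le _ _).trans ?_) n2)
        gcongr
    _ = 2 * z.re * ∑ m ∈ Finset.range n, Real.exp (C m) / s C m +
        2 * z.re * ‖φ n (z / (s C n : ℂ)) / (s C n : ℂ)‖ +
        2 * z.re * ((∑' i, Real.exp (C (i + (n + 1))) * s C (i + (n + 1))) / ‖z‖ ^ 2) := by ring
    _ ≤ A n + 2 * ε C n := by
        rw [ε]
        linarith

end

end Pool.Agent.H50.IR
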