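import Mathlib
import Pool.Agent.H50.IR.Sum
import Pool.Agent.H50.IV.Tools

/-! # Auxiliary facts for the final theorem, quantitative form -/

open Complex Set Filter Topology

namespace Pool.Agent.H50.IR

open Pool.Agent.H50.IV

section

variable {b φ F : ℕ → ℂ → ℂ} {ζ : ℕ → ℂ} {C A : ℕ → ℝ} (D : Data b φ F ζ C A)

include D

lemma eps_le (n : ℕ) : ε C n ≤ 3 * Real.exp (-18 * C n) := by
  have h2 := two_le D.C_ge n
  have hstep := D.C_step n
  have e1 : Real.exp (C n) ^ 2 * q C n = Real.exp (-18 * C n) := by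
    unfold q
    rw [← Real.exp_nat_mul, ← Real.exp_add]
    congr 1
    push_cast
    ring
  have e2 : Real.exp (C (n + 1)) * q C (n + 1) ≤ Real.exp (-18 * C n) := by
    unfold q
    rw [← Real.exp_add, Real.exp_le_exp]
    linarith
  rw [ε, e1]
  linarith

lemma t_le_pow (n : ℕ) : t C n ≤ (1 / 1000) ^ n := by
  induction n with
  | zero => simp [t]
  | succ n ih =>
    have h := t_succ_le D.C_ge n
    rw [pow_succ]
    linarith

lemma x_le_pow (n : ℕ) : x C n ≤ (1 / 1000) ^ n := by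
  have h1 := t_le_pow D n
  have h2 := t_le_one D.C_ge (n + 1)
  have h3 := t_pos (C := C) n
  have h4 := t_pos (C := C) (n + 1)
  rw [x]
  nlinarith

lemma exists_reg {z : ℂ} (hz : 0 < z.re) : ∃ n, z ∈ Reg C n := by
  have hz0 : 0 < ‖z‖ := lt_of_lt_of_le hz ((le_abs_self _).trans (abs_re_le_norm z))
  have hex : ∃ n, x C n ≤ ‖z‖ := by
    obtain ⟨n, hn⟩ := exists_pow_lt_of_lt_one hz0 (show (1 / 1000 : ℝ) < 1 by norm_num)
    exact ⟨n, (x_le_pow D n).trans hn.le⟩
  classical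
  refine ⟨Nat.find hex, hz, Nat.find_spec hex, ?_⟩
  intro m hm
  have := Nat.find_min hex (m := m) (by omega)
  push Not at this
  exact this.le

/-- Uniform bound away from the origin. -/
lemma norm_B'_le {z : ℂ} (hz : 0 < z.re) {τ : ℝ} (hτ : 0 < τ) (h : τ ≤ ‖z‖) :
    ‖B' φ C z‖ ≤ 2 * (Real.exp (C 0) * s C 0) / τ ^ 2 := by
  have hs : Summable fun i => Real.exp (C (i + 0)) * s C (i + 0) / ‖z‖ ^ 2 :=
    (summable_Es D.C_ge 0).div_const _
  have hz0 : 0 < ‖z‖ := lt_of_lt_of_le hτ h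
  rw [B']
  refine (tsum_of_norm_bounded hs.hasSum fun i => deriv_small_le D hz i).trans ?_
  rw [tsum_div_const]
  have h1 := tsum_Es_le D.C_ge 0
  have hC := Real.exp_pos (C 0)
  have hs0 := s_pos (C := C) 0
  calc (∑' i, Real.exp (C (i + 0)) * s C (i + 0)) / ‖z‖ ^ 2
      ≤ (2 * (Real.exp (C 0) * s C 0)) / ‖z‖ ^ 2 := by gcongr
    _ ≤ 2 * (Real.exp (C 0) * s C 0) / τ ^ 2 := by gcongr

/-- Decay of the sum. -/
lemma norm_B_le {z : ℂ} (hz : 0 < z.re) {τ : ℝ} (hτ : 0 < τ) (h : τ ≤ ‖z‖) :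
    ‖B b C z‖ ≤ 2 * (Real.exp (C 0) * s C 0) / τ := by
  have hs : Summable fun i => Real.exp (C (i + 0)) * s C (i + 0) / ‖z‖ :=
    (summable_Es D.C_ge 0).div_const _
  rw [B]
  refine (tsum_of_norm_bounded hs.hasSum fun i => small_le D hz i).trans ?_
  rw [tsum_div_const]
  have h1 := tsum_Es_le D.C_ge 0
  have hC := Real.exp_pos (C 0)
  have hs0 := s_pos (C := C) 0
  calc (∑' i, Real.exp (C (i + 0)) * s C (i + 0)) / ‖z‖
      ≤ (2 * (Real.exp (C 0) * s C 0)) / ‖z‖ := by gcongr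
    _ ≤ 2 * (Real.exp (C 0) * s C 0) / τ := by gcongr

/-- On the regions with `n ≥ 1` the point is small. -/
lemma norm_le_q {n : ℕ} (hn : 1 ≤ n) {z : ℂ} (hz : z ∈ Reg C n) : ‖z‖ ≤ q C n := by
  obtain ⟨m, rfl⟩ : ∃ m, n = m + 1 := ⟨n - 1, by omega⟩
  have h1 := hz.2.2 m rfl
  rw [x_eq] at h1
  have h2 := s_le_one D.C_ge m
  have h3 := q_pos (C := C) (m + 1)
  nlinarith

lemma q_le_eps (n : ℕ) : q C n ≤ ε C n := by
  have h1 : 1 ≤ Real.exp (C n) := one_le_exp (by have := two_le D.C_ge n; linarith)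
  have h3 := q_pos (C := C) n
  have h4 := q_pos (C := C) (n + 1)
  rw [ε]
  have h5 : 1 * q C n ≤ Real.exp (C n) ^ 2 * q C n := by
    apply mul_le_mul_of_nonneg_right _ h3.le
    nlinarith
  have h6 : 0 ≤ 2 * Real.exp (C (n + 1)) * q C (n + 1) := by positivity
  linarith

/-- The derivative in the `n`-th region. -/
lemma norm_B'_reg {n : ℕ} {z : ℂ} (hz : z ∈ Reg C n) :
    ‖B' φ C z‖ ≤ 3 * Real.exp (C (n + 1)) ^ 2 / s C n := by
  have h0 : 0 < z.re := hz.1
  have hx := x_pos (C := C) n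
  have hz0 : 0 < ‖z‖ := lt_of_lt_of_le hx hz.2.1
  have hsn := s_pos (C := C) n
  have hq := q_pos (C := C) (n + 1)
  have hE : 1 ≤ Real.exp (C (n + 1)) := one_le_exp (by
    have := two_le D.C_ge (n + 1); linarith)
  have hsum := summable_deriv D h0
  have h1 := hsum.sum_add_tsum_nat_add (n + 1)
  rw [B', ← h1]
  have hs : Summable fun i => Real.exp (C (i + (n + 1))) * s C (i + (n + 1)) / ‖z‖ ^ 2 :=
    (summable_Es D.C_ge (n + 1)).div_const _
  have n1 : ‖∑ m ∈ Finset.range (n + 1), φ m (z / (s C m : ℂ)) / (s C m : ℂ)‖ ≤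
      Real.exp (C (n + 1)) ^ 2 / s C n :=
    ((norm_sum_le _ _).trans (Finset.sum_le_sum fun m _ => deriv_large_le D h0 m)).trans
      (head_le D.C_ge D.C_step n)
  have n2 : ‖∑' i, φ (i + (n + 1)) (z / (s C (i + (n + 1)) : ℂ)) / (s C (i + (n + 1)) : ℂ)‖ ≤
      2 * Real.exp (C (n + 1)) / s C n := by
    refine (tsum_of_norm_bounded hs.hasSum fun i => deriv_small_le D h0 _).trans ?_
    rw [tsum_div_const]
    calc (∑' i, Real.exp (C (i + (n + 1))) * s C (i + (n + 1))) / ‖z‖ ^ 2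
        ≤ (2 * (Real.exp (C (n + 1)) * s C (n + 1))) / ‖z‖ ^ 2 := by
          gcongr
          exact tsum_Es_le D.C_ge (n + 1)
      _ ≤ (2 * (Real.exp (C (n + 1)) * s C (n + 1))) / x C n ^ 2 := by
          have hsp := s_pos (C := C) (n + 1)
          have hEp := Real.exp_pos (C (n + 1))
          exact div_le_div_of_nonneg_left (by positivity) (by positivity)
            (pow_le_pow_left₀ hx.le hz.2.1 2)
      _ = 2 * Real.exp (C (n + 1)) / s C n := by
          rw [← x_eq' n, x_eq n]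
          field_simp
  have n3 : 2 * Real.exp (C (n + 1)) / s C n ≤ 2 * Real.exp (C (n + 1)) ^ 2 / s C n := by
    gcongr
    nlinarith
  refine (norm_add_le _ _).trans ((add_le_add n1 (n2.trans n3)).trans (le_of_eq ?_))
  ring

/-- Lower bound for the scales when `C` doubles. -/
lemma s_ge (hC : ∀ n, C (n + 1) = 2 * C n) (n : ℕ) : Real.exp (-80 * C n) ≤ s C n := by
  have h : ∀ n, Real.exp (-40 * C n) ≤ t C n := by
    intro n
    induction n with
    | zero =>
      rw [t, Real.exp_le_one_iff]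
      have := two_le D.C_ge 0
      linarith
    | succ n ih =>
      rw [t, q]
      calc Real.exp (-40 * C (n + 1)) = Real.exp (-20 * C (n + 1)) * Real.exp (-40 * C n) := by
            rw [← Real.exp_add, hC n]
            congr 1
            ring
        _ ≤ Real.exp (-20 * C (n + 1)) * t C n := by gcongr
  rw [s]
  calc Real.exp (-80 * C n) = Real.exp (-40 * C n) ^ 2 := by
        rw [← Real.exp_nat_mul]
        congr 1
        push_cast
        ring
    _ ≤ t C n ^ 2 := by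
        gcongr
        exact h n

end

end Pool.Agent.H50.IR
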