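import Mathlib
import Pool.Agent.H50.IR.Defs

set_option autoImplicit false

/-!
# A value taken at every scale (quantitative form)
-/

open Complex Set Filter Topology

namespace Pool.Agent.H50.IR

open Pool.Agent.H50.IV (q t s x B B' K Reg)

/-! ### the scales -/

theorem v_q_pos (C : ℕ → ℝ) (n : ℕ) : 0 < q C n := Real.exp_pos _

theorem v_t_pos (C : ℕ → ℝ) : ∀ n, 0 < t C n
  | 0 => one_pos
  | (n + 1) => mul_pos (v_q_pos C _) (v_t_pos C n)

theorem v_s_pos (C : ℕ → ℝ) (n : ℕ) : 0 < s C n := pow_pos (v_t_pos C n) 2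

theorem v_x_pos (C : ℕ → ℝ) (n : ℕ) : 0 < x C n := mul_pos (v_t_pos C n) (v_t_pos C (n + 1))

theorem v_x_eq (C : ℕ → ℝ) (n : ℕ) : x C n = q C (n + 1) * s C n := by
  unfold x s
  rw [t]
  ring

theorem v_s_succ (C : ℕ → ℝ) (n : ℕ) : s C (n + 1) = q C (n + 1) * x C n := by
  unfold x s
  rw [t]
  ring

variable {b φ F : ℕ → ℂ → ℂ} {ζ : ℕ → ℂ} {C A : ℕ → ℝ} {Bt Bt' : ℂ → ℂ} {k : ℂ}

theorem Data.two_le (D : Data b φ F ζ C A) (n : ℕ) : 2 ≤ C n := by
  have := D.C_ge n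
  have h : (0 : ℝ) ≤ n := Nat.cast_nonneg n
  linarith

theorem Data.q_le (D : Data b φ F ζ C A) (n : ℕ) : q C n ≤ 1 := by
  unfold q
  rw [Real.exp_le_one_iff]
  have := D.two_le n
  linarith

theorem Data.t_le (D : Data b φ F ζ C A) : ∀ n, t C n ≤ 1
  | 0 => le_rfl
  | (n + 1) => by
    rw [t]
    exact mul_le_one₀ (D.q_le _) (v_t_pos C n).le (D.t_le n)

theorem Data.x_le (D : Data b φ F ζ C A) (n : ℕ) : x C n ≤ 1 :=
  mul_le_one₀ (D.t_le n) (v_t_pos C _).le (D.t_le _)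

theorem Data.x_anti (D : Data b φ F ζ C A) (n : ℕ) : x C (n + 1) ≤ x C n := by
  rw [v_x_eq, v_s_succ]
  have h1 := D.q_le (n + 2)
  have h2 := D.q_le (n + 1)
  have h3 := v_x_pos C n
  calc q C (n + 1 + 1) * (q C (n + 1) * x C n) ≤ 1 * (1 * x C n) :=
        mul_le_mul h1 (mul_le_mul_of_nonneg_right h2 h3.le)
          (mul_nonneg (v_q_pos C _).le h3.le) zero_le_one
    _ = x C n := by ring

theorem Data.s_le (D : Data b φ F ζ C A) {n : ℕ} (hn : 1 ≤ n) : s C n ≤ q C n ^ 2 := by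
  obtain ⟨m, rfl⟩ : ∃ m, n = m + 1 := ⟨n - 1, by omega⟩
  unfold s
  rw [t]
  refine pow_le_pow_left₀ (mul_pos (v_q_pos C _) (v_t_pos C m)).le ?_ 2
  exact mul_le_of_le_one_right (v_q_pos C _).le (D.t_le m)

theorem Data.ε_le (D : Data b φ F ζ C A) (n : ℕ) : ε C n ≤ 3 * Real.exp (-18 * C n) := by
  have hc := D.two_le n
  have hc' := D.C_step n
  have e1 : Real.exp (C n) ^ 2 * q C n = Real.exp (-18 * C n) := by
    unfold q
    rw [← Real.exp_nat_mul, ← Real.exp_add]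
    congr 1
    push_cast
    ring
  have e2 : Real.exp (C (n + 1)) * q C (n + 1) ≤ Real.exp (-18 * C n) := by
    unfold q
    rw [← Real.exp_add, Real.exp_le_exp]
    linarith
  unfold ε
  rw [e1, mul_assoc]
  linarith

theorem Data.ε_le_one (D : Data b φ F ζ C A) (n : ℕ) : 2 * ε C n ≤ 1 := by
  have h0 := D.ε_le n
  have hc := D.two_le n
  have h1 : Real.exp (-18 * C n) ≤ Real.exp (-3) := Real.exp_le_exp.2 (by linarith)
  have h2 : Real.exp (-3) ≤ 1 / 8 := by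
    rw [Real.exp_neg, ← one_div]
    refine one_div_le_one_div_of_le (by norm_num) ?_
    have h3 : (2 : ℝ) ≤ Real.exp 1 := by have := Real.add_one_le_exp (1 : ℝ); linarith
    calc (8 : ℝ) = 2 ^ 3 := by norm_num
      _ ≤ Real.exp 1 ^ 3 := pow_le_pow_left₀ (by norm_num) h3 3
      _ = Real.exp 3 := by rw [← Real.exp_nat_mul]; norm_num
  linarith

theorem Data.ε_nonneg (D : Data b φ F ζ C A) (n : ℕ) : 0 ≤ ε C n := by
  unfold ε
  have h2 := v_q_pos C n
  have h3 := v_q_pos C (n + 1)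
  positivity

theorem mem_ball_iff {z : ℂ} : z ∈ Metric.ball (1 : ℂ) 1 ↔ ‖z‖ ^ 2 < 2 * z.re := by
  rw [Metric.mem_ball, dist_eq_norm]
  have h1 : ‖z - 1‖ ^ 2 = ‖z‖ ^ 2 - 2 * z.re + 1 := by
    rw [← Complex.normSq_eq_norm_sq, ← Complex.normSq_eq_norm_sq, Complex.normSq_apply,
      Complex.normSq_apply]
    simp
    ring
  constructor
  · intro h
    have h2 : ‖z - 1‖ ^ 2 < 1 := by
      have := norm_nonneg (z - 1)
      nlinarith
    linarith
  · intro h
    have h2 : ‖z - 1‖ ^ 2 < 1 := by linarith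
    by_contra h3
    push Not at h3
    nlinarith

theorem ofReal_mem_ball {y : ℝ} (h0 : 0 < y) (h1 : y ≤ 1) : (y : ℂ) ∈ Metric.ball (1 : ℂ) 1 := by
  rw [mem_ball_iff, norm_real, Real.norm_eq_abs, sq_abs, ofReal_re]
  nlinarith

theorem reg_of {n : ℕ} {w : ℂ} (h0 : 0 < w.re) (h1 : q C (n + 1) ≤ ‖w‖)
    (h2 : q C n * ‖w‖ ≤ 1) : (s C n : ℂ) * w ∈ Reg C n := by
  have hs := v_s_pos C n
  have hn : ‖(s C n : ℂ) * w‖ = s C n * ‖w‖ := by
    rw [norm_mul, norm_real, Real.norm_eq_abs, abs_of_pos hs]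
  refine ⟨by rw [re_ofReal_mul]; exact mul_pos hs h0, ?_, ?_⟩
  · rw [hn, v_x_eq, mul_comm]
    exact mul_le_mul_of_nonneg_left h1 hs.le
  · rintro m rfl
    rw [hn, v_s_succ]
    calc q C (m + 1) * x C m * ‖w‖ = x C m * (q C (m + 1) * ‖w‖) := by ring
      _ ≤ x C m * 1 := mul_le_mul_of_nonneg_left h2 (v_x_pos C m).le
      _ = x C m := mul_one _

/-! ### the limit value -/

/-- the size of `G` at scale `n` -/
noncomputable def P (b : ℕ → ℂ → ℂ) (C : ℕ → ℝ) (k : ℂ) (n : ℕ) : ℝ := s C n * ‖exp ((k + K b n))‖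

theorem P_pos (b : ℕ → ℂ → ℂ) (C : ℕ → ℝ) (k : ℂ) (n : ℕ) : 0 < P b C k n :=
  mul_pos (v_s_pos C n) (norm_pos_iff.2 (exp_ne_zero _))

theorem Data.b_le (D : Data b φ F ζ C A) (n : ℕ) {z : ℂ} (hz : 0 ≤ z.re) : ‖b n z‖ ≤ C n :=
  D.hb' n z hz

theorem Data.expK_succ (D : Data b φ F ζ C A) (k : ℂ) (n : ℕ) :
    ‖exp ((k + K b (n + 1)))‖ ≤ ‖exp ((k + K b n))‖ * Real.exp (C n) := by
  unfold K
  rw [Finset.sum_range_succ, ← add_assoc, exp_add, norm_mul]
  refine mul_le_mul_of_nonneg_left ?_ (norm_nonneg _)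
  rw [norm_exp, Real.exp_le_exp]
  exact (re_le_norm _).trans (D.b_le n le_rfl)

/-- the derivative on `Reg n` -/
theorem Data.expB_le (D : Data b φ F ζ C A)
    (hreg : ∀ n, 1 ≤ n → ∀ z ∈ Metric.ball (1 : ℂ) 1, z ∈ Reg C n →
      ‖Bt z - (k + K b n) - b n (z / (s C n : ℂ))‖ ≤ 2 * ε C n)
    {n : ℕ} (hn : 1 ≤ n) {z : ℂ} (hzb : z ∈ Metric.ball (1 : ℂ) 1) (hz : z ∈ Reg C n) :
    ‖exp (Bt z)‖ ≤ ‖exp ((k + K b n))‖ * Real.exp (C n + 1) := by
  have h1 : Bt z = (k + K b n) + (b n (z / (s C n : ℂ)) + (Bt z - (k + K b n) - b n (z / (s C n : ℂ)))) := by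
    ring
  rw [h1, exp_add, norm_mul]
  refine mul_le_mul_of_nonneg_left ?_ (norm_nonneg _)
  rw [norm_exp, Real.exp_le_exp, add_re]
  have h2 : 0 ≤ (z / (s C n : ℂ)).re := by
    rw [div_ofReal_re]
    exact div_nonneg hz.1.le (v_s_pos C n).le
  have h3 := (re_le_norm _).trans (D.b_le n h2)
  have h4 := (re_le_norm _).trans ((hreg n hn z hzb hz).trans (D.ε_le_one n))
  linarith

theorem Data.step (D : Data b φ F ζ C A)
    (hreg : ∀ n, 1 ≤ n → ∀ z ∈ Metric.ball (1 : ℂ) 1, z ∈ Reg C n →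
      ‖Bt z - (k + K b n) - b n (z / (s C n : ℂ))‖ ≤ 2 * ε C n)
    (G : ℂ → ℂ) (hG : ∀ z ∈ Metric.ball (1 : ℂ) 1, HasDerivAt G (exp (Bt z)) z) (n : ℕ) :
    dist (G (x C n : ℂ)) (G (x C (n + 1) : ℂ)) ≤ P b C k n * Real.exp (-18 * C (n + 1)) := by
  have hx := D.x_anti n
  have hconv : Convex ℝ (Icc (x C (n + 1)) (x C n)) := convex_Icc _ _
  have hder : ∀ y ∈ Icc (x C (n + 1)) (x C n),
      HasDerivWithinAt (fun y : ℝ => G (y : ℂ)) (exp (Bt (y : ℂ)))
        (Icc (x C (n + 1)) (x C n)) y := by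
    intro y hy
    have hy0 : 0 < y := lt_of_lt_of_le (v_x_pos C _) hy.1
    exact (hG _ (ofReal_mem_ball hy0 (hy.2.trans (D.x_le n)))).comp_ofReal.hasDerivWithinAt
  have hbd : ∀ y ∈ Icc (x C (n + 1)) (x C n), ‖exp (Bt (y : ℂ))‖ ≤
      ‖exp ((k + K b (n + 1)))‖ * Real.exp (C (n + 1) + 1) := by
    intro y hy
    have hy0 : 0 < y := lt_of_lt_of_le (v_x_pos C _) hy.1
    refine D.expB_le hreg (by omega) (ofReal_mem_ball hy0 (hy.2.trans (D.x_le n)))
      ⟨by simpa using hy0, ?_, ?_⟩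
    · rw [norm_real, Real.norm_eq_abs, abs_of_pos hy0]; exact hy.1
    · intro m hm
      have : m = n := by omega
      subst this
      rw [norm_real, Real.norm_eq_abs, abs_of_pos hy0]; exact hy.2
  have h1 := hconv.norm_image_sub_le_of_norm_hasDerivWithin_le hder hbd
    (left_mem_Icc.2 hx) (right_mem_Icc.2 hx)
  rw [dist_eq_norm]
  refine h1.trans ?_
  have h2 : ‖x C n - x C (n + 1)‖ ≤ q C (n + 1) * s C n := by
    rw [Real.norm_eq_abs, abs_of_nonneg (by linarith), ← v_x_eq]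
    have := v_x_pos C (n + 1)
    linarith
  have h3 := D.expK_succ k n
  have h4 := D.C_step n
  calc ‖exp ((k + K b (n + 1)))‖ * Real.exp (C (n + 1) + 1) * ‖x C n - x C (n + 1)‖
      ≤ (‖exp ((k + K b n))‖ * Real.exp (C n)) * Real.exp (C (n + 1) + 1) * (q C (n + 1) * s C n) := by
        refine mul_le_mul (mul_le_mul_of_nonneg_right h3 (Real.exp_pos _).le) h2
          (norm_nonneg _) (by positivity)
    _ = P b C k n * Real.exp (C n + (C (n + 1) + 1) + -20 * C (n + 1)) := by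
        unfold P q
        rw [Real.exp_add (C n + (C (n + 1) + 1)) (-20 * C (n + 1)),
          Real.exp_add (C n) (C (n + 1) + 1)]
        ring
    _ ≤ P b C k n * Real.exp (-18 * C (n + 1)) := by
        refine mul_le_mul_of_nonneg_left (Real.exp_le_exp.2 ?_) (P_pos b C k n).le
        linarith

theorem Data.P_succ (D : Data b φ F ζ C A) (n : ℕ) :
    P b C k (n + 1) * Real.exp (-18 * C (n + 2)) ≤ P b C k n * Real.exp (-18 * C (n + 1)) / 2 := by
  have h3 := D.expK_succ k n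
  have h4 := D.C_step n
  have h5 := D.C_step (n + 1)
  have h6 := D.two_le n
  have h7 : Real.exp (-1) ≤ 1 / 2 := by
    rw [Real.exp_neg, ← one_div]
    exact one_div_le_one_div_of_le (by norm_num) (by have := Real.add_one_le_exp (1 : ℝ); linarith)
  calc P b C k (n + 1) * Real.exp (-18 * C (n + 2))
      ≤ (q C (n + 1) * (q C (n + 1) * s C n)) * (‖exp ((k + K b n))‖ * Real.exp (C n)) *
          Real.exp (-18 * C (n + 2)) := by
        refine mul_le_mul_of_nonneg_right ?_ (Real.exp_pos _).le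
        unfold P
        rw [v_s_succ, v_x_eq]
        refine mul_le_mul_of_nonneg_left h3 ?_
        have := v_q_pos C (n + 1)
        have := v_s_pos C n
        positivity
    _ = P b C k n * Real.exp (-20 * C (n + 1) + -20 * C (n + 1) + C n + -18 * C (n + 2)) := by
        unfold P q
        rw [Real.exp_add, Real.exp_add, Real.exp_add]
        ring
    _ ≤ P b C k n * Real.exp (-18 * C (n + 1) + -1) := by
        refine mul_le_mul_of_nonneg_left (Real.exp_le_exp.2 ?_) (P_pos b C k n).le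
        have h5' : C (n + 1) + 1 ≤ C (n + 2) := h5
        linarith
    _ = P b C k n * Real.exp (-18 * C (n + 1)) * Real.exp (-1) := by
        rw [Real.exp_add]; ring
    _ ≤ P b C k n * Real.exp (-18 * C (n + 1)) * (1 / 2) :=
        mul_le_mul_of_nonneg_left h7 (mul_pos (P_pos b C k n) (Real.exp_pos _)).le
    _ = _ := by ring

theorem Data.geo (D : Data b φ F ζ C A) (n : ℕ) : ∀ j : ℕ,
    P b C k (n + j) * Real.exp (-18 * C (n + j + 1)) ≤
      2 * (P b C k n * Real.exp (-18 * C (n + 1))) / 2 / 2 ^ j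
  | 0 => by
    rw [add_zero, pow_zero, div_one, mul_div_cancel_left₀ _ (two_ne_zero)]
  | (j + 1) => by
    have h1 := D.P_succ (k := k) (n + j)
    have h2 := D.geo n j
    have e : P b C k (n + (j + 1)) * Real.exp (-18 * C (n + (j + 1) + 1)) =
        P b C k (n + j + 1) * Real.exp (-18 * C (n + j + 2)) := rfl
    rw [e]
    refine h1.trans ?_
    rw [pow_succ, ← div_div]
    exact div_le_div_of_nonneg_right h2 (by norm_num)

/-- the limit value -/
theorem Data.limit (D : Data b φ F ζ C A)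
    (hreg : ∀ n, 1 ≤ n → ∀ z ∈ Metric.ball (1 : ℂ) 1, z ∈ Reg C n →
      ‖Bt z - (k + K b n) - b n (z / (s C n : ℂ))‖ ≤ 2 * ε C n)
    (G : ℂ → ℂ) (hG : ∀ z ∈ Metric.ball (1 : ℂ) 1, HasDerivAt G (exp (Bt z)) z) :
    ∃ w : ℂ, ∀ n, ‖G (x C n : ℂ) - w‖ ≤ 2 * (P b C k n * Real.exp (-18 * C (n + 1))) := by
  have hd : ∀ n j, dist (G (x C (n + j) : ℂ)) (G (x C (n + (j + 1)) : ℂ)) ≤
      2 * (P b C k n * Real.exp (-18 * C (n + 1))) / 2 / 2 ^ j := fun n j =>
    (D.step hreg G hG (n + j)).trans (D.geo n j)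
  have hcs := cauchySeq_of_le_geometric_two (hd 0)
  obtain ⟨w, hw⟩ := cauchySeq_tendsto_of_complete hcs
  refine ⟨w, fun n => ?_⟩
  have hw' : Tendsto (fun j => G (x C (n + j) : ℂ)) atTop (𝓝 w) := by
    have h1 := hw.comp (tendsto_add_atTop_nat n)
    refine h1.congr fun j => ?_
    show G (x C (0 + (j + n)) : ℂ) = _
    rw [zero_add, add_comm]
  have h2 := dist_le_of_le_geometric_two_of_tendsto₀ (hd n) hw'
  rw [add_zero, dist_eq_norm] at h2
  exact h2

/-! ### the value is taken at scale `n` -/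

/-- `G` seen at scale `n` -/
noncomputable def HH (b : ℕ → ℂ → ℂ) (C : ℕ → ℝ) (k : ℂ) (G : ℂ → ℂ) (n : ℕ) (v : ℂ) : ℂ :=
  ((s C n : ℂ) * exp ((k + K b n)))⁻¹ * G ((s C n : ℂ) * v)

theorem sK_ne (b : ℕ → ℂ → ℂ) (C : ℕ → ℝ) (k : ℂ) (n : ℕ) : (s C n : ℂ) * exp ((k + K b n)) ≠ 0 :=
  mul_ne_zero (ofReal_ne_zero.2 (v_s_pos C n).ne') (exp_ne_zero _)

theorem hasDerivAt_HH {G : ℂ → ℂ}
    (hG : ∀ z ∈ Metric.ball (1 : ℂ) 1, HasDerivAt G (exp (Bt z)) z) {n : ℕ} {v : ℂ}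
    (hv : (s C n : ℂ) * v ∈ Metric.ball (1 : ℂ) 1) :
    HasDerivAt (HH b C k G n) (exp (Bt ((s C n : ℂ) * v) - (k + K b n))) v := by
  have hs : (s C n : ℂ) ≠ 0 := ofReal_ne_zero.2 (v_s_pos C n).ne'
  have h1 : HasDerivAt (fun v : ℂ => (s C n : ℂ) * v) (s C n : ℂ) v := by
    simpa using (hasDerivAt_id v).const_mul (s C n : ℂ)
  have h2 := ((hG _ hv).comp v h1).const_mul ((s C n : ℂ) * exp ((k + K b n)))⁻¹
  refine h2.congr_deriv ?_
  rw [exp_sub]
  have := exp_ne_zero ((k + K b n))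
  field_simp

/-- comparison with the `n`-th fold -/
theorem Data.compare (D : Data b φ F ζ C A)
    (hreg : ∀ n, 1 ≤ n → ∀ z ∈ Metric.ball (1 : ℂ) 1, z ∈ Reg C n →
      ‖Bt z - (k + K b n) - b n (z / (s C n : ℂ))‖ ≤ 2 * ε C n)
    {n : ℕ} (hn : 1 ≤ n) {v : ℂ} (hvb : (s C n : ℂ) * v ∈ Metric.ball (1 : ℂ) 1)
    (hv : (s C n : ℂ) * v ∈ Reg C n) (hv0 : 0 ≤ v.re) :
    ‖exp (Bt ((s C n : ℂ) * v) - (k + K b n)) - exp (b n v)‖ ≤
      Real.exp (C n) * (4 * ε C n) := by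
  have hs : (s C n : ℂ) ≠ 0 := ofReal_ne_zero.2 (v_s_pos C n).ne'
  have h1 := hreg n hn _ hvb hv
  rw [mul_div_cancel_left₀ _ hs] at h1
  have e1 : exp (Bt ((s C n : ℂ) * v) - (k + K b n)) - exp (b n v) =
      exp (b n v) * (exp (Bt ((s C n : ℂ) * v) - (k + K b n) - b n v) - 1) := by
    rw [mul_sub, ← exp_add, mul_one]
    congr 2
    ring
  rw [e1, norm_mul]
  refine mul_le_mul ?_ ?_ (norm_nonneg _) (Real.exp_pos _).le
  · rw [norm_exp, Real.exp_le_exp]
    exact (re_le_norm _).trans (D.b_le n hv0)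
  · refine (norm_exp_sub_one_le (h1.trans (D.ε_le_one n))).trans ?_
    linarith

/-- (Q1) -/
theorem Data.Q1 (D : Data b φ F ζ C A)
    (hreg : ∀ n, 1 ≤ n → ∀ z ∈ Metric.ball (1 : ℂ) 1, z ∈ Reg C n →
      ‖Bt z - (k + K b n) - b n (z / (s C n : ℂ))‖ ≤ 2 * ε C n)
    {G : ℂ → ℂ} (hG : ∀ z ∈ Metric.ball (1 : ℂ) 1, HasDerivAt G (exp (Bt z)) z)
    {n : ℕ} (hn : 1 ≤ n) (hζ : (s C n : ℂ) * ζ n ∈ Metric.ball (1 : ℂ) 1) :
    ‖HH b C k G n (ζ n) - HH b C k G n (q C (n + 1) : ℂ)‖ ≤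
      Real.exp (C n) * (4 * ε C n) * (Real.exp (C n) + 1) + Real.exp (C n) * q C (n + 1) := by
  have hc := D.two_le n
  have hc' := D.C_step n
  have hq := v_q_pos C (n + 1)
  have hqc : q C (n + 1) ≤ Real.exp (-C n) := by
    unfold q
    exact Real.exp_le_exp.2 (by linarith)
  have hqn : q C n * Real.exp (C n) ≤ 1 := by
    unfold q
    rw [← Real.exp_add]
    exact Real.exp_le_one_iff.2 (by linarith)
  have hζn := D.ζ_norm n
  have hζr := D.ζ_re n
  set S : Set ℂ := {v | q C (n + 1) ≤ v.re} ∩ (Metric.closedBall 0 (Real.exp (C n)) ∩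
    (fun v : ℂ => (s C n) • v) ⁻¹' Metric.ball (1 : ℂ) 1) with hS
  have hconv : Convex ℝ S := (convex_halfSpace_re_ge _).inter
    ((convex_closedBall _ _).inter ((convex_ball (1 : ℂ) 1).smul_preimage (s C n)))
  have hsm : ∀ v : ℂ, (s C n) • v = (s C n : ℂ) * v := fun v => real_smul
  have hζS : ζ n ∈ S := by
    refine ⟨hqc.trans hζr, ?_, ?_⟩
    · rw [mem_closedBall_zero_iff]; exact hζn
    · show (s C n) • ζ n ∈ Metric.ball (1 : ℂ) 1
      rw [hsm]; exact hζ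
  have hqS : (q C (n + 1) : ℂ) ∈ S := by
    refine ⟨by simp, ?_, ?_⟩
    · rw [mem_closedBall_zero_iff, norm_real, Real.norm_eq_abs, abs_of_pos hq]
      have h1 := D.q_le (n + 1)
      have h2 := Real.add_one_le_exp (C n)
      linarith
    · show (s C n) • (q C (n + 1) : ℂ) ∈ Metric.ball (1 : ℂ) 1
      rw [hsm, ← ofReal_mul, mul_comm, ← v_x_eq]
      exact ofReal_mem_ball (v_x_pos C n) (D.x_le n)
  have hreS : ∀ v ∈ S, (s C n : ℂ) * v ∈ Reg C n ∧ 0 ≤ v.re ∧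
      (s C n : ℂ) * v ∈ Metric.ball (1 : ℂ) 1 := by
    rintro v ⟨h1, h2, h3⟩
    have h1' : q C (n + 1) ≤ v.re := h1
    rw [mem_closedBall_zero_iff] at h2
    refine ⟨reg_of (lt_of_lt_of_le hq h1') (h1'.trans (re_le_norm v)) ?_, hq.le.trans h1', ?_⟩
    · exact (mul_le_mul_of_nonneg_left h2 (v_q_pos C n).le).trans hqn
    · have h3' : (s C n) • v ∈ Metric.ball (1 : ℂ) 1 := h3
      rwa [hsm] at h3'
  have h1 := hconv.norm_image_sub_le_of_norm_hasDerivWithin_le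
    (f := fun v => HH b C k G n v - F n v)
    (f' := fun v => exp (Bt ((s C n : ℂ) * v) - (k + K b n)) - exp (b n v))
    (C := Real.exp (C n) * (4 * ε C n))
    (fun v hv => ((hasDerivAt_HH hG (hreS v hv).2.2).sub
      (D.dF n v (hreS v hv).2.1)).hasDerivWithinAt)
    (fun v hv => D.compare hreg hn (hreS v hv).2.2 (hreS v hv).1 (hreS v hv).2.1) hqS hζS
  have h2 : ‖F n (q C (n + 1) : ℂ) - F n 0‖ ≤ Real.exp (C n) * q C (n + 1) := by
    have hHc : Convex ℝ {v : ℂ | (0 : ℝ) ≤ v.re} := convex_halfSpace_re_ge 0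
    have m0 : (0 : ℂ) ∈ {v : ℂ | (0 : ℝ) ≤ v.re} := by simp
    have m1 : (q C (n + 1) : ℂ) ∈ {v : ℂ | (0 : ℝ) ≤ v.re} := by simpa using hq.le
    have h3 := hHc.norm_image_sub_le_of_norm_hasDerivWithin_le
      (f := F n) (f' := fun v => exp (b n v)) (C := Real.exp (C n))
      (fun v hv => (D.dF n v hv).hasDerivWithinAt)
      (fun v hv => by
        rw [norm_exp, Real.exp_le_exp]
        exact (re_le_norm _).trans (D.b_le n hv)) m0 m1
    rwa [sub_zero, norm_real, Real.norm_eq_abs, abs_of_pos hq] at h3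
  have h4 : ‖ζ n - (q C (n + 1) : ℂ)‖ ≤ Real.exp (C n) + 1 := by
    refine (norm_sub_le _ _).trans (add_le_add hζn ?_)
    rw [norm_real, Real.norm_eq_abs, abs_of_pos hq]
    exact D.q_le _
  have h5 : HH b C k G n (ζ n) - HH b C k G n (q C (n + 1) : ℂ) =
      ((HH b C k G n (ζ n) - F n (ζ n)) -
        (HH b C k G n (q C (n + 1) : ℂ) - F n (q C (n + 1) : ℂ))) -
      (F n (q C (n + 1) : ℂ) - F n 0) := by
    rw [D.hF n]; ring
  rw [h5]
  refine (norm_sub_le _ _).trans (add_le_add (h1.trans ?_) h2)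
  refine mul_le_mul_of_nonneg_left h4 ?_
  have := D.ε_nonneg n
  have := Real.exp_pos (C n)
  positivity

/-- numerics -/
theorem Data.num (D : Data b φ F ζ C A) (n : ℕ) :
    2 * Real.exp (-18 * C (n + 1)) +
      (Real.exp (C n) * (4 * ε C n) * (Real.exp (C n) + 1) + Real.exp (C n) * q C (n + 1)) <
    Real.exp (-C n - 1) * Real.exp (-C n) / 32 := by
  have hc := D.two_le n
  have hc' := D.C_step n
  have hE := Real.exp_pos (C n)
  have hE1 : 1 ≤ Real.exp (C n) := Real.one_le_exp (by linarith)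
  have e1 : 2 * Real.exp (-18 * C (n + 1)) ≤ 2 * Real.exp (-15 * C n) := by
    have := Real.exp_le_exp.2 (show -18 * C (n + 1) ≤ -15 * C n by linarith)
    linarith
  have e2 : Real.exp (C n) * (4 * ε C n) * (Real.exp (C n) + 1) ≤ 24 * Real.exp (-15 * C n) := by
    have h1 := D.ε_le n
    have h2 := D.ε_nonneg n
    calc Real.exp (C n) * (4 * ε C n) * (Real.exp (C n) + 1)
        ≤ Real.exp (C n) * (4 * (3 * Real.exp (-18 * C n))) * (2 * Real.exp (C n)) := by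
          refine mul_le_mul ?_ (by linarith) (by linarith) (by positivity)
          exact mul_le_mul_of_nonneg_left (by linarith) hE.le
      _ = 24 * (Real.exp (C n) * Real.exp (-18 * C n) * Real.exp (C n)) := by ring
      _ = 24 * Real.exp (-16 * C n) := by
          rw [← Real.exp_add, ← Real.exp_add]
          congr 2
          ring
      _ ≤ 24 * Real.exp (-15 * C n) := by
          have := Real.exp_le_exp.2 (show -16 * C n ≤ -15 * C n by linarith)
          linarith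
  have e3 : Real.exp (C n) * q C (n + 1) ≤ Real.exp (-15 * C n) := by
    unfold q
    rw [← Real.exp_add]
    exact Real.exp_le_exp.2 (by linarith)
  have e4 : 2 * Real.exp (-18 * C (n + 1)) +
      (Real.exp (C n) * (4 * ε C n) * (Real.exp (C n) + 1) + Real.exp (C n) * q C (n + 1)) ≤
      27 * Real.exp (-15 * C n) := by linarith
  refine lt_of_le_of_lt e4 ?_
  rw [lt_div_iff₀ (by norm_num)]
  have h2 : (2 : ℝ) ≤ Real.exp 1 := by have := Real.add_one_le_exp (1 : ℝ); linarith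
  have h8 : (1024 : ℝ) ≤ Real.exp 10 := by
    calc (1024 : ℝ) = 2 ^ 10 := by norm_num
      _ ≤ Real.exp 1 ^ 10 := pow_le_pow_left₀ (by norm_num) h2 10
      _ = Real.exp 10 := by rw [← Real.exp_nat_mul]; norm_num
  have hp := Real.exp_pos (-15 * C n)
  calc 27 * Real.exp (-15 * C n) * 32 = 864 * Real.exp (-15 * C n) := by ring
    _ < Real.exp 10 * Real.exp (-15 * C n) := mul_lt_mul_of_pos_right (by linarith) hp
    _ = Real.exp (10 + -15 * C n) := by rw [Real.exp_add]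
    _ ≤ Real.exp (-C n - 1 + -C n) := Real.exp_le_exp.2 (by linarith)
    _ = Real.exp (-C n - 1) * Real.exp (-C n) := by rw [Real.exp_add]

/-- (P2) and the conclusion at scale `n` -/
theorem Data.cover (D : Data b φ F ζ C A)
    (hreg : ∀ n, 1 ≤ n → ∀ z ∈ Metric.ball (1 : ℂ) 1, z ∈ Reg C n →
      ‖Bt z - (k + K b n) - b n (z / (s C n : ℂ))‖ ≤ 2 * ε C n)
    (hdB : ∀ z ∈ Metric.ball (1 : ℂ) 1, HasDerivAt Bt (Bt' z) z)
    (hnB : ∀ n, 1 ≤ n → ∀ z ∈ Metric.ball (1 : ℂ) 1, z ∈ Reg C n → 2 * z.re * ‖Bt' z‖ ≤ 3)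
    {G : ℂ → ℂ} (hG : ∀ z ∈ Metric.ball (1 : ℂ) 1, HasDerivAt G (exp (Bt z)) z)
    {n : ℕ} (hn : 1 ≤ n) {w : ℂ}
    (hw : ‖G (x C n : ℂ) - w‖ ≤ 2 * (P b C k n * Real.exp (-18 * C (n + 1)))) :
    ∃ z ∈ Metric.ball (1 : ℂ) 1, G z = w ∧ ‖z‖ ≤ 2 * Real.exp (C n) * s C n := by
  have hc := D.two_le n
  have hc' := D.C_step n
  have hs := v_s_pos C n
  have hζn := D.ζ_norm n
  have hζr := D.ζ_re n
  have hcinv : 0 < Real.exp (-C n) := Real.exp_pos _
  have hE0 : 0 < Real.exp (C n) := Real.exp_pos _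
  set ρ : ℝ := (ζ n).re / 8 with hρ
  have hζ0 : 0 < (ζ n).re := lt_of_lt_of_le hcinv hζr
  have hρ0 : 0 < ρ := by positivity
  have hζre : (ζ n).re ≤ Real.exp (C n) := (re_le_norm _).trans hζn
  -- powers of `q`
  have hq2 : q C n * (2 * Real.exp (C n)) ≤ 1 := by
    have h2 : (2 : ℝ) ≤ Real.exp 1 := by have := Real.add_one_le_exp (1 : ℝ); linarith
    calc q C n * (2 * Real.exp (C n)) ≤ q C n * (Real.exp 1 * Real.exp (C n)) :=
          mul_le_mul_of_nonneg_left (mul_le_mul_of_nonneg_right h2 hE0.le) (v_q_pos C n).le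
      _ = Real.exp (-20 * C n + (1 + C n)) := by unfold q; rw [Real.exp_add, Real.exp_add]
      _ ≤ 1 := Real.exp_le_one_iff.2 (by linarith)
  have hqr : q C (n + 1) ≤ Real.exp (-C n) / 2 := by
    have h2 : Real.exp (-1) ≤ 1 / 2 := by
      rw [Real.exp_neg, ← one_div]
      exact one_div_le_one_div_of_le (by norm_num)
        (by have := Real.add_one_le_exp (1 : ℝ); linarith)
    calc q C (n + 1) ≤ Real.exp (-C n + -1) := Real.exp_le_exp.2 (by linarith)
      _ = Real.exp (-C n) * Real.exp (-1) := by rw [Real.exp_add]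
      _ ≤ Real.exp (-C n) * (1 / 2) := mul_le_mul_of_nonneg_left h2 hcinv.le
      _ = Real.exp (-C n) / 2 := by ring
  -- the points of the disc
  have hdisc : ∀ v ∈ Metric.closedBall (ζ n) ρ, 7 / 8 * (ζ n).re ≤ v.re ∧ ‖v‖ ≤ 9 / 8 * Real.exp (C n) := by
    intro v hv
    rw [Metric.mem_closedBall, dist_eq_norm] at hv
    constructor
    · have h1 : (ζ n - v).re ≤ ‖ζ n - v‖ := re_le_norm _
      rw [sub_re, norm_sub_rev] at h1
      linarith
    · calc ‖v‖ = ‖(v - ζ n) + ζ n‖ := by rw [sub_add_cancel]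
        _ ≤ ρ + Real.exp (C n) := (norm_add_le _ _).trans (add_le_add hv hζn)
        _ ≤ 9 / 8 * Real.exp (C n) := by linarith
  have hdre : ∀ v ∈ Metric.closedBall (ζ n) ρ, 0 < v.re := fun v hv => by
    have := (hdisc v hv).1; linarith
  have hdreg : ∀ v ∈ Metric.closedBall (ζ n) ρ, (s C n : ℂ) * v ∈ Reg C n := by
    intro v hv
    obtain ⟨h1, h2⟩ := hdisc v hv
    refine reg_of (hdre v hv) (le_trans ?_ (re_le_norm v)) ?_
    · refine le_trans hqr ?_
      linarith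
    · have h4 := mul_le_mul_of_nonneg_left h2 (v_q_pos C n).le
      have h5 : q C n * (9 / 8 * Real.exp (C n)) ≤ q C n * (2 * Real.exp (C n)) :=
        mul_le_mul_of_nonneg_left (by linarith) (v_q_pos C n).le
      linarith
  have hdball : ∀ v ∈ Metric.closedBall (ζ n) ρ, (s C n : ℂ) * v ∈ Metric.ball (1 : ℂ) 1 := by
    intro v hv
    obtain ⟨h1, h2⟩ := hdisc v hv
    rw [mem_ball_iff, norm_mul, norm_real, Real.norm_eq_abs, abs_of_pos hs, re_ofReal_mul]
    have h3 : s C n * Real.exp (C n) ^ 2 ≤ Real.exp (-C n) / 4 := by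
      have h4 := D.s_le hn
      have h5 : Real.exp (-2) ≤ 1 / 4 := by
        rw [Real.exp_neg, ← one_div]
        refine one_div_le_one_div_of_le (by norm_num) ?_
        have h3 : (2 : ℝ) ≤ Real.exp 1 := by have := Real.add_one_le_exp (1 : ℝ); linarith
        calc (4 : ℝ) = 2 ^ 2 := by norm_num
          _ ≤ Real.exp 1 ^ 2 := pow_le_pow_left₀ (by norm_num) h3 2
          _ = Real.exp 2 := by rw [← Real.exp_nat_mul]; norm_num
      calc s C n * Real.exp (C n) ^ 2 ≤ q C n ^ 2 * Real.exp (C n) ^ 2 :=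
            mul_le_mul_of_nonneg_right h4 (by positivity)
        _ = Real.exp (-20 * C n + -20 * C n + (C n + C n)) := by
            unfold q
            rw [Real.exp_add, Real.exp_add, Real.exp_add]
            ring
        _ ≤ Real.exp (-C n + -2) := Real.exp_le_exp.2 (by linarith)
        _ = Real.exp (-C n) * Real.exp (-2) := by rw [Real.exp_add]
        _ ≤ Real.exp (-C n) * (1 / 4) := mul_le_mul_of_nonneg_left h5 hcinv.le
        _ = Real.exp (-C n) / 4 := by ring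
    have h6 : ‖v‖ ^ 2 ≤ (9 / 8 * Real.exp (C n)) ^ 2 := pow_le_pow_left₀ (norm_nonneg v) h2 2
    have h7 : s C n * ‖v‖ ^ 2 < v.re := by
      have h8 : s C n * ‖v‖ ^ 2 ≤ s C n * (9 / 8 * Real.exp (C n)) ^ 2 :=
        mul_le_mul_of_nonneg_left h6 hs.le
      have h9 : s C n * (9 / 8 * Real.exp (C n)) ^ 2 =
          81 / 64 * (s C n * Real.exp (C n) ^ 2) := by ring
      have h11 : 7 / 8 * Real.exp (-C n) ≤ v.re := by linarith
      linarith
    nlinarith
  have hζm : ζ n ∈ Metric.closedBall (ζ n) ρ := Metric.mem_closedBall_self hρ0.le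
  have hconv : Convex ℝ (Metric.closedBall (ζ n) ρ) := convex_closedBall _ _
  -- `B` is nearly constant on the disc
  have hu : ∀ v ∈ Metric.closedBall (ζ n) ρ,
      ‖Bt ((s C n : ℂ) * v) - Bt ((s C n : ℂ) * ζ n)‖ ≤ 1 / 4 := by
    intro v hv
    have h1 := hconv.norm_image_sub_le_of_norm_hasDerivWithin_le
      (f := fun v => Bt ((s C n : ℂ) * v))
      (f' := fun v => Bt' ((s C n : ℂ) * v) * (s C n : ℂ)) (C := 12 / (7 * (ζ n).re))
      (fun v hv => by
        have e1 : HasDerivAt (fun v : ℂ => (s C n : ℂ) * v) (s C n : ℂ) v := by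
          simpa using (hasDerivAt_id v).const_mul (s C n : ℂ)
        exact ((hdB _ (hdball v hv)).comp v e1).hasDerivWithinAt)
      (fun v hv => by
        have e1 := hnB n hn _ (hdball v hv) (hdreg v hv)
        rw [re_ofReal_mul] at e1
        rw [norm_mul, norm_real, Real.norm_eq_abs, abs_of_pos hs, le_div_iff₀ (by positivity)]
        have e6 := (hdisc v hv).1
        have e7 : 0 ≤ ‖Bt' ((s C n : ℂ) * v)‖ * s C n := by positivity
        have e8 : ‖Bt' ((s C n : ℂ) * v)‖ * s C n * (7 / 8 * (ζ n).re) ≤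
            ‖Bt' ((s C n : ℂ) * v)‖ * s C n * v.re := mul_le_mul_of_nonneg_left e6 e7
        have e9 : 2 * (s C n * v.re) * ‖Bt' ((s C n : ℂ) * v)‖ =
            2 * (‖Bt' ((s C n : ℂ) * v)‖ * s C n * v.re) := by ring
        rw [e9] at e1
        nlinarith) hζm hv
    refine h1.trans ?_
    rw [Metric.mem_closedBall, dist_eq_norm] at hv
    calc 12 / (7 * (ζ n).re) * ‖v - ζ n‖ ≤ 12 / (7 * (ζ n).re) * ρ :=
          mul_le_mul_of_nonneg_left hv (by positivity)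
      _ = 12 / 56 := by rw [hρ]; field_simp; norm_num
      _ ≤ 1 / 4 := by norm_num
  -- lower bound on the circle
  set d : ℂ := exp (Bt ((s C n : ℂ) * ζ n) - (k + K b n)) with hd
  have hdn : Real.exp (-C n - 1) ≤ ‖d‖ := by
    rw [hd, norm_exp, Real.exp_le_exp]
    have h1 := hreg n hn _ (hdball _ hζm) (hdreg _ hζm)
    rw [mul_div_cancel_left₀ _ (ofReal_ne_zero.2 hs.ne')] at h1
    have h2 := (abs_le.1 ((abs_re_le_norm _).trans (h1.trans (D.ε_le_one n)))).1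
    have h3 := (abs_le.1 ((abs_re_le_norm _).trans (D.b_le n hζ0.le))).1
    have h4 : (Bt ((s C n : ℂ) * ζ n) - (k + K b n)).re =
        (Bt ((s C n : ℂ) * ζ n) - (k + K b n) - b n (ζ n)).re + (b n (ζ n)).re := by
      rw [← add_re]; congr 1; ring
    rw [h4]
    linarith
  have hlow : ∀ v ∈ Metric.sphere (ζ n) ρ,
      ‖d‖ * ρ / 2 ≤ ‖HH b C k G n v - HH b C k G n (ζ n)‖ := by
    intro v hv
    have hv' := Metric.sphere_subset_closedBall hv
    have h1 := hconv.norm_image_sub_le_of_norm_hasDerivWithin_le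
      (f := fun v => HH b C k G n v - d * v)
      (f' := fun v => exp (Bt ((s C n : ℂ) * v) - (k + K b n)) - d) (C := ‖d‖ / 2)
      (fun v hv => by
        have e1 : HasDerivAt (fun v : ℂ => d * v) d v := by
          simpa using (hasDerivAt_id v).const_mul d
        exact ((hasDerivAt_HH hG (hdball v hv)).sub e1).hasDerivWithinAt)
      (fun v hv => by
        have e1 : exp (Bt ((s C n : ℂ) * v) - (k + K b n)) - d =
            d * (exp (Bt ((s C n : ℂ) * v) - Bt ((s C n : ℂ) * ζ n)) - 1) := by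
          rw [hd, mul_sub, ← exp_add, mul_one]
          congr 2
          ring
        rw [e1, norm_mul, div_eq_mul_inv]
        refine mul_le_mul_of_nonneg_left ?_ (norm_nonneg _)
        have e2 := hu v hv
        have e3 := norm_exp_sub_one_le (e2.trans (by norm_num : (1 : ℝ) / 4 ≤ 1))
        norm_num
        linarith) hζm hv'
    rw [mem_sphere_iff_norm] at hv
    rw [hv] at h1
    have h2 : d * (v - ζ n) = (HH b C k G n v - HH b C k G n (ζ n)) -
        ((HH b C k G n v - d * v) - (HH b C k G n (ζ n) - d * ζ n)) := by ring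
    have h3 := norm_sub_le (HH b C k G n v - HH b C k G n (ζ n))
      ((HH b C k G n v - d * v) - (HH b C k G n (ζ n) - d * ζ n))
    rw [← h2, norm_mul, hv] at h3
    linarith
  have hDC : DiffContOnCl ℂ (HH b C k G n) (Metric.ball (ζ n) ρ) := by
    refine DifferentiableOn.diffContOnCl_ball (U := Metric.closedBall (ζ n) ρ) ?_ Subset.rfl
    exact fun v hv => (hasDerivAt_HH hG (hdball v hv)).differentiableAt.differentiableWithinAt
  have hfr : ∃ᶠ v in 𝓝 (ζ n), HH b C k G n v ≠ HH b C k G n (ζ n) := by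
    have h3 : ∀ᶠ v in 𝓝[≠] (ζ n), HH b C k G n v ≠ HH b C k G n (ζ n) :=
      (hasDerivAt_HH hG (hdball _ hζm)).eventually_ne (exp_ne_zero _)
    exact h3.frequently.filter_mono nhdsWithin_le_nhds
  have himg := hDC.ball_subset_image_closedBall hρ0 hlow hfr
  -- the target
  have hQ1 := D.Q1 hreg hG hn (hdball _ hζm)
  have hx : HH b C k G n (q C (n + 1) : ℂ) = ((s C n : ℂ) * exp ((k + K b n)))⁻¹ * G (x C n : ℂ) := by
    unfold HH
    rw [v_x_eq, ofReal_mul, mul_comm (q C (n + 1) : ℂ)]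
  have hPn : ‖((s C n : ℂ) * exp ((k + K b n)))⁻¹‖ = (P b C k n)⁻¹ := by
    unfold P
    rw [norm_inv, norm_mul, norm_real, Real.norm_eq_abs, abs_of_pos hs]
  have hP := P_pos b C k n
  have hclose : ‖((s C n : ℂ) * exp ((k + K b n)))⁻¹ * w - HH b C k G n (ζ n)‖ <
      Real.exp (-C n - 1) * Real.exp (-C n) / 32 := by
    have h1 : ((s C n : ℂ) * exp ((k + K b n)))⁻¹ * w - HH b C k G n (ζ n) =
        -(((s C n : ℂ) * exp ((k + K b n)))⁻¹ * (G (x C n : ℂ) - w)) -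
          (HH b C k G n (ζ n) - HH b C k G n (q C (n + 1) : ℂ)) := by
      rw [hx]; ring
    have h2 : ‖((s C n : ℂ) * exp ((k + K b n)))⁻¹ * (G (x C n : ℂ) - w)‖ ≤
        2 * Real.exp (-18 * C (n + 1)) := by
      rw [norm_mul, hPn]
      calc (P b C k n)⁻¹ * ‖G (x C n : ℂ) - w‖
          ≤ (P b C k n)⁻¹ * (2 * (P b C k n * Real.exp (-18 * C (n + 1)))) :=
            mul_le_mul_of_nonneg_left hw (inv_nonneg.2 hP.le)
        _ = 2 * Real.exp (-18 * C (n + 1)) := by field_simp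
    rw [h1]
    refine lt_of_le_of_lt (norm_sub_le _ _) ?_
    rw [norm_neg]
    exact lt_of_le_of_lt (add_le_add h2 hQ1) (D.num n)
  have hrad : Real.exp (-C n - 1) * Real.exp (-C n) / 32 ≤ ‖d‖ * ρ / 2 / 2 := by
    have h1 : Real.exp (-C n) / 8 ≤ ρ := by rw [hρ]; linarith
    have h2 := mul_le_mul hdn h1 (by positivity) (norm_nonneg d)
    linarith
  have hmem : ((s C n : ℂ) * exp ((k + K b n)))⁻¹ * w ∈
      Metric.ball (HH b C k G n (ζ n)) (‖d‖ * ρ / 2 / 2) := by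
    rw [Metric.mem_ball, dist_eq_norm]
    exact lt_of_lt_of_le hclose hrad
  obtain ⟨v, hv, hvw⟩ := himg hmem
  refine ⟨(s C n : ℂ) * v, hdball v hv, ?_, ?_⟩
  · exact mul_left_cancel₀ (inv_ne_zero (sK_ne b C k n)) hvw
  · rw [norm_mul, norm_real, Real.norm_eq_abs, abs_of_pos hs]
    have h1 := (hdisc v hv).2
    nlinarith

/-- M5, abstract form: a value taken at every scale `n ≥ 1`. -/
theorem value_abs (D : Data b φ F ζ C A)
    (Bt Bt' G : ℂ → ℂ) (k : ℂ) (hB : ∀ z ∈ Metric.ball (1 : ℂ) 1, HasDerivAt Bt (Bt' z) z)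
    (hreg : ∀ n, 1 ≤ n → ∀ z ∈ Metric.ball (1 : ℂ) 1, z ∈ Reg C n →
      ‖Bt z - k - K b n - b n (z / (s C n : ℂ))‖ ≤ 2 * ε C n)
    (hB' : ∀ n, 1 ≤ n → ∀ z ∈ Metric.ball (1 : ℂ) 1, z ∈ Reg C n → 2 * z.re * ‖Bt' z‖ ≤ 3)
    (hG : ∀ z ∈ Metric.ball (1 : ℂ) 1, HasDerivAt G (exp (Bt z)) z) :
    ∃ w : ℂ, ∀ n, 1 ≤ n → ∃ z ∈ Metric.ball (1 : ℂ) 1, G z = w ∧
      ‖z‖ ≤ 2 * Real.exp (C n) * s C n := by
  have hreg' : ∀ n, 1 ≤ n → ∀ z ∈ Metric.ball (1 : ℂ) 1, z ∈ Reg C n →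
      ‖Bt z - (k + K b n) - b n (z / (s C n : ℂ))‖ ≤ 2 * ε C n := by
    intro n hn z hz hr
    rw [← sub_sub]
    exact hreg n hn z hz hr
  obtain ⟨w, hw⟩ := D.limit hreg' G hG
  exact ⟨w, fun n hn => D.cover hreg' hB hB' hG hn (hw n)⟩

end Pool.Agent.H50.IR
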