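import Mathlib
import Pool.Agent.H50.IR.Base
import Pool.Agent.H50.IR.Value
import Pool.Agent.H50.IR.Tools
import Pool.Agent.H50.IV.Dense

/-! # The final theorem, with a rate -/

open Complex Set Filter Topology

namespace Pool.Agent.H50.IR

open Pool.Agent.H50.IV (q t s x B B' K Reg approx infinite_of_close re_pos_of_mem
  re_pos_of_mem_ball one_sub_sq_le norm_div' q_pos t_pos s_pos x_pos two_le q_le)

/-- The parameters. -/
lemma exists_params {η : ℝ} (hη0 : 0 < η) :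
    ∃ (b φ F : ℕ → ℂ → ℂ) (ζ : ℕ → ℂ) (C A : ℕ → ℝ), Data b φ F ζ C A ∧
      (∀ n, C (n + 1) = 2 * C n) ∧
      (∀ n, A n + 2 * ε C n ≤ 1 + η) ∧
      ∀ n, A n + 2 * ε C n ≤ 1 + 2 * Real.exp (-C n / 6) := by
  obtain ⟨C₀, hC₀, hbase⟩ := base_quant
  set c : ℝ := C₀ + 12 / η with hc
  have h12 : 0 < 12 / η := by positivity
  set C : ℕ → ℝ := fun n => c * 2 ^ n with hC
  have h2n : ∀ n : ℕ, (n : ℝ) + 1 ≤ 2 ^ n := fun n => by
    have h := Nat.lt_two_pow_self (n := n)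
    exact_mod_cast h
  have hCc : ∀ n, c ≤ C n := fun n => by
    have h1 : (1 : ℝ) ≤ 2 ^ n := one_le_pow₀ (by norm_num)
    simp only [hC]
    nlinarith
  have hCC : ∀ n, C₀ ≤ C n := fun n => by
    have := hCc n
    linarith
  choose b φ F ζ h1 h2 h3 h4 h5 h6 h7 h8 h9 using fun n => hbase (C n) (hCC n)
  have D : Data b φ F ζ C (fun n => 1 + Real.exp (-C n / 6)) := by
    refine ⟨fun n => ?_, fun n => ?_, h3, h4, h5, h6, h7, h8, h2, h1, h9⟩
    · have := h2n n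
      have hn : (0 : ℝ) ≤ n := Nat.cast_nonneg n
      have hp : (0 : ℝ) < 2 ^ n := by positivity
      simp only [hC]
      nlinarith
    · have := hCc n
      have e : C (n + 1) = 2 * C n := by simp only [hC]; rw [pow_succ]; ring
      rw [e]
      linarith
  have heps : ∀ n, 2 * ε C n ≤ Real.exp (-C n / 6) := fun n => by
    have e1 := eps_le D n
    have e2 := two_le D.C_ge n
    have e3 : Real.exp (-18 * C n) ≤ Real.exp (-C n / 6) * (1 / 1000) := by
      calc Real.exp (-18 * C n) = Real.exp (-C n / 6) * Real.exp (-(107 / 6) * C n) := by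
            rw [← Real.exp_add]
            congr 1
            ring
        _ ≤ Real.exp (-C n / 6) * Real.exp (-20) := by
            gcongr
            linarith
        _ ≤ Real.exp (-C n / 6) * (1 / 1000) := by
            gcongr
            exact exp_neg_twenty_le
    have := Real.exp_pos (-C n / 6)
    linarith
  refine ⟨b, φ, F, ζ, C, fun n => 1 + Real.exp (-C n / 6), D, fun n => ?_, fun n => ?_,
    fun n => ?_⟩
  · simp only [hC]; rw [pow_succ]; ring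
  · have e1 := heps n
    have e2 : Real.exp (-C n / 6) ≤ η / 2 := by
      have e3 : -C n / 6 = -(C n / 6) := by ring
      rw [e3, Real.exp_neg]
      rw [inv_le_comm₀ (Real.exp_pos _) (by positivity)]
      have e4 := Real.add_one_le_exp (C n / 6)
      have e5 := hCc n
      have e6 : (η / 2)⁻¹ = 12 / η / 6 := by field_simp; norm_num
      rw [e6]
      linarith
    show 1 + Real.exp (-C n / 6) + 2 * ε C n ≤ 1 + η
    linarith
  · have e1 := heps n
    show 1 + Real.exp (-C n / 6) + 2 * ε C n ≤ 1 + 2 * Real.exp (-C n / 6)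
    linarith

/-- The rate near the circle. -/
lemma rate_small {σ M : ℝ} (hσ : 0 < σ) :
    ∃ v₀ > 0, ∀ v : ℝ, 0 < v → v < v₀ →
      2 * M * v + 2 * (12 * v / σ) ^ (1 / 504 : ℝ) ≤ v ^ (1 / 600 : ℝ) := by
  set c : ℝ := 2 * (12 / σ) ^ (1 / 504 : ℝ) with hc
  set h : ℝ → ℝ := fun v => 2 * M * v ^ (599 / 600 : ℝ) + c * v ^ (1 / 504 - 1 / 600 : ℝ) with hh
  have hcont : ContinuousAt h 0 := by
    have h1 : ContinuousAt (fun v : ℝ => v ^ (599 / 600 : ℝ)) 0 :=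
      Real.continuousAt_rpow_const 0 _ (Or.inr (by norm_num))
    have h2 : ContinuousAt (fun v : ℝ => v ^ (1 / 504 - 1 / 600 : ℝ)) 0 :=
      Real.continuousAt_rpow_const 0 _ (Or.inr (by norm_num))
    exact (h1.const_mul _).add (h2.const_mul _)
  have h0 : h 0 = 0 := by
    simp only [hh]
    rw [Real.zero_rpow (by norm_num), Real.zero_rpow (by norm_num)]
    ring
  have hev : ∀ᶠ v in 𝓝 (0 : ℝ), h v < 1 :=
    hcont.eventually_lt continuousAt_const (by rw [h0]; exact one_pos)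
  obtain ⟨v₀, hv₀, hball⟩ := Metric.eventually_nhds_iff.1 hev
  refine ⟨v₀, hv₀, fun v hv hvv => ?_⟩
  have h1 : h v < 1 := hball (by rw [dist_zero_right, Real.norm_eq_abs, abs_of_pos hv]; exact hvv)
  have e1 : (12 * v / σ) ^ (1 / 504 : ℝ) = (12 / σ) ^ (1 / 504 : ℝ) * v ^ (1 / 504 : ℝ) := by
    rw [← Real.mul_rpow (by positivity) hv.le]
    congr 1
    ring
  have e2 : v ^ (1 / 504 : ℝ) = v ^ (1 / 600 : ℝ) * v ^ (1 / 504 - 1 / 600 : ℝ) := by
    rw [← Real.rpow_add hv]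
    congr 1
    norm_num
  have e3 : v = v ^ (1 / 600 : ℝ) * v ^ (599 / 600 : ℝ) := by
    rw [← Real.rpow_add hv]
    norm_num
  have e4 : 2 * M * v + 2 * (12 * v / σ) ^ (1 / 504 : ℝ) = v ^ (1 / 600 : ℝ) * h v := by
    rw [e1, e2]
    simp only [hh, hc]
    nth_rewrite 1 [e3]
    ring
  rw [e4]
  have hp : 0 < v ^ (1 / 600 : ℝ) := Real.rpow_pos_of_pos hv _
  nlinarith

/-- Density, for a smooth function `f₁`. -/
theorem dense_aux {r r₁ M : ℝ} (hr : 1 < r) (hr₁ : r₁ < r) (hM : 0 ≤ M) {f₁ : ℂ → ℂ}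
    (h10 : f₁ 0 = 0) (h1 : ∀ z : ℂ, ‖z‖ ≤ 1 → DifferentiableAt ℂ f₁ z ∧ ‖deriv f₁ z‖ ≤ M ∧
        (1 - ‖z‖ ^ 2) * ‖deriv f₁ z‖ ≤ r₁)
    {ρ₀ : ℝ} (hρ₀ : ρ₀ < 1) {e : ℝ} (he : 0 < e) :
    ∃ f g : ℂ → ℂ, DifferentiableOn ℂ f (Metric.ball 0 1) ∧
    f 0 = 0 ∧ g 0 = 0 ∧ (∀ z ∈ Metric.ball (0 : ℂ) 1, HasDerivAt g (exp (f z)) z) ∧
    (∃ r' < r, ∀ z ∈ Metric.ball (0 : ℂ) 1, (1 - ‖z‖ ^ 2) * ‖deriv f z‖ ≤ r') ∧
    (∃ ρ < 1, ∀ z : ℂ, ρ < ‖z‖ → ‖z‖ < 1 →
      (1 - ‖z‖ ^ 2) * ‖deriv f z‖ ≤ 1 + (1 - ‖z‖) ^ (1 / 600 : ℝ)) ∧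
    (∀ z : ℂ, ‖z‖ ≤ ρ₀ → ‖f z - f₁ z‖ < e) ∧
    ∃ w : ℂ, {z ∈ Metric.ball (0 : ℂ) 1 | g z = w}.Infinite := by
  obtain ⟨η, hη0, hη1, hη2⟩ : ∃ η : ℝ, 0 < η ∧ η ≤ (r - 1) / 4 ∧ η ≤ 1 / 2 :=
    ⟨min ((r - 1) / 4) (1 / 2), lt_min (by linarith) (by norm_num), min_le_left _ _,
      min_le_right _ _⟩
  obtain ⟨b, φ, F, ζ, C, A, D, hdouble, hAε, hlim⟩ := exists_params hη0
  set c₀ : ℝ := 2 * (Real.exp (C 0) * s C 0) with hc₀
  have hc₀pos : 0 < c₀ := by
    have := s_pos (C := C) 0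
    positivity
  set δ : ℝ := η / (2 * (M + 1)) with hδ
  have hδpos : 0 < δ := by positivity
  have hδM : 2 * δ * M ≤ η := by
    have : 2 * δ * M = η * (M / (M + 1)) := by
      rw [hδ]; field_simp
    rw [this]
    have : M / (M + 1) ≤ 1 := by
      rw [div_le_one (by linarith)]; linarith
    nlinarith
  obtain ⟨σ, hσ0, hσ1, hσ2, hσ3, hσ4⟩ : ∃ σ : ℝ, 0 < σ ∧ σ ≤ 1 ∧ σ ≤ 1 / (M + 1) ∧
      σ ≤ (r - r₁) * δ / (4 * c₀) ∧ σ ≤ e * (1 - ρ₀) / (4 * c₀) := by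
    have a1 : 0 < 1 / (M + 1) := by positivity
    have a2 : 0 < (r - r₁) * δ / (4 * c₀) := by
      have : 0 < r - r₁ := by linarith
      positivity
    have a3 : 0 < e * (1 - ρ₀) / (4 * c₀) := by
      have : 0 < 1 - ρ₀ := by linarith
      positivity
    refine ⟨min (min 1 (1 / (M + 1))) (min ((r - r₁) * δ / (4 * c₀)) (e * (1 - ρ₀) / (4 * c₀))),
      lt_min (lt_min one_pos a1) (lt_min a2 a3), ?_, ?_, ?_, ?_⟩
    · exact (min_le_left _ _).trans (min_le_left _ _)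
    · exact (min_le_left _ _).trans (min_le_right _ _)
    · exact (min_le_right _ _).trans (min_le_left _ _)
    · exact (min_le_right _ _).trans (min_le_right _ _)
  have hσM : σ * M ≤ 1 := by
    rw [le_div_iff₀ (by linarith)] at hσ2
    nlinarith
  have hσδ : 2 * c₀ * σ / δ ≤ (r - r₁) / 2 := by
    rw [le_div_iff₀ (by positivity)] at hσ3
    rw [div_le_iff₀ hδpos]
    linarith
  have hσe : ∀ y : ℝ, 1 - ρ₀ ≤ y → c₀ / (y / σ) ≤ e / 4 := by
    intro y hy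
    have hy0 : 0 < y := by linarith
    rw [le_div_iff₀ (by positivity)] at hσ4
    rw [div_le_iff₀ (by positivity)]
    have : e / 4 * (y / σ) = e * y / (4 * σ) := by ring
    rw [this, le_div_iff₀ (by positivity)]
    have h2 : e * (1 - ρ₀) ≤ e * y := mul_le_mul_of_nonneg_left hy he.le
    linarith
  have hσc : (σ : ℂ) ≠ 0 := ofReal_ne_zero.2 hσ0.ne'
  -- the coordinate
  set W : ℂ → ℂ := fun z => (1 - z) / (σ : ℂ) with hW
  have hWre : ∀ z, (W z).re = (1 - z).re / σ := fun z => by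
    simp only [hW]; rw [div_ofReal_re]
  have hWn : ∀ z, ‖W z‖ = ‖1 - z‖ / σ := fun z => by
    simp only [hW]; rw [norm_div' _ hσ0]
  have hWpos : ∀ z : ℂ, ‖z‖ < 1 → 0 < (W z).re := fun z hz => by
    rw [hWre]; exact div_pos (re_pos_of_mem hz) hσ0
  have hWd : ∀ z : ℂ, HasDerivAt W (-1 / (σ : ℂ)) z := by
    intro z
    have h1 : HasDerivAt (fun z : ℂ => 1 - z) (-1) z := by
      simpa using (hasDerivAt_id z).const_sub 1
    exact h1.div_const _
  set k₀ : ℂ := B b C (W 0) with hk₀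
  set f : ℂ → ℂ := fun z => f₁ z + (B b C (W z) - k₀) with hf
  have hdf : ∀ z : ℂ, ‖z‖ < 1 →
      HasDerivAt f (deriv f₁ z + B' φ C (W z) * (-1 / (σ : ℂ))) z := by
    intro z hz
    have h2 := ((hasDerivAt_B D (hWpos z hz)).comp z (hWd z)).sub_const k₀
    exact (h1 z hz.le).1.hasDerivAt.add h2
  have hnd : ∀ z : ℂ, ‖z‖ < 1 → ‖deriv f z‖ ≤ ‖deriv f₁ z‖ + ‖B' φ C (W z)‖ / σ := by
    intro z hz
    rw [(hdf z hz).deriv]
    refine (norm_add_le _ _).trans (le_of_eq ?_)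
    congr 1
    rw [norm_mul, norm_div, norm_neg, norm_one, norm_real, Real.norm_eq_abs, abs_of_pos hσ0]
    ring
  have hone : ∀ z : ℂ, ‖z‖ < 1 → 0 ≤ 1 - ‖z‖ ^ 2 := fun z hz => by
    nlinarith [norm_nonneg z]
  have hbound : ∀ z : ℂ, ‖z‖ < 1 → (1 - ‖z‖ ^ 2) * (‖B' φ C (W z)‖ / σ) ≤
      2 * (W z).re * ‖B' φ C (W z)‖ := by
    intro z hz
    have h1 := one_sub_sq_le z
    have h2 : 0 ≤ ‖B' φ C (W z)‖ / σ := by positivity
    rw [hWre]
    calc (1 - ‖z‖ ^ 2) * (‖B' φ C (W z)‖ / σ) ≤ 2 * (1 - z).re * (‖B' φ C (W z)‖ / σ) :=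
          mul_le_mul_of_nonneg_right h1 h2
      _ = 2 * ((1 - z).re / σ) * ‖B' φ C (W z)‖ := by ring
  have htot : ∀ z : ℂ, ‖z‖ < 1 → (1 - ‖z‖ ^ 2) * ‖deriv f z‖ ≤
      (1 - ‖z‖ ^ 2) * ‖deriv f₁ z‖ + 2 * (W z).re * ‖B' φ C (W z)‖ := by
    intro z hz
    have h2 := mul_le_mul_of_nonneg_left (hnd z hz) (hone z hz)
    have h3 := hbound z hz
    rw [mul_add] at h2
    linarith
  -- the primitive
  have hfd : DifferentiableOn ℂ f (Metric.ball 0 1) := by
    intro z hz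
    have hz' : ‖z‖ < 1 := by simpa using hz
    exact (hdf z hz').differentiableAt.differentiableWithinAt
  have hE : DifferentiableOn ℂ (fun z => exp (f z)) (Metric.ball (0 : ℂ) 1) := hfd.cexp
  obtain ⟨g₀, hg₀⟩ := hE.isExactOn_ball
  set g : ℂ → ℂ := fun z => g₀ z - g₀ 0 with hg
  have hgd : ∀ z ∈ Metric.ball (0 : ℂ) 1, HasDerivAt g (exp (f z)) z := fun z hz =>
    (hg₀ z hz).sub_const _
  -- the value
  have hin : ∀ v ∈ Metric.ball (1 : ℂ) 1, ‖1 - (σ : ℂ) * v‖ < 1 := by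
    intro v hv
    have hv' : ‖v - 1‖ < 1 := by rwa [Metric.mem_ball, dist_eq_norm] at hv
    have e1 : 1 - (σ : ℂ) * v = ((1 - σ : ℝ) : ℂ) - (σ : ℂ) * (v - 1) := by push_cast; ring
    rw [e1]
    refine lt_of_le_of_lt (norm_sub_le _ _) ?_
    rw [norm_real, Real.norm_eq_abs, abs_of_nonneg (by linarith), norm_mul, norm_real,
      Real.norm_eq_abs, abs_of_pos hσ0]
    nlinarith
  have hWv : ∀ v : ℂ, W (1 - (σ : ℂ) * v) = v := fun v => by
    simp only [hW]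
    field_simp
    ring
  have hline : ∀ v : ℂ, HasDerivAt (fun v : ℂ => 1 - (σ : ℂ) * v) (-(σ : ℂ)) v := by
    intro v
    have h1 : HasDerivAt (fun v : ℂ => (σ : ℂ) * v) (σ : ℂ) v := by
      simpa using (hasDerivAt_id v).const_mul (σ : ℂ)
    simpa using h1.const_sub 1
  have hval := value_abs D (fun v => B b C v + f₁ (1 - (σ : ℂ) * v))
    (fun v => B' φ C v + deriv f₁ (1 - (σ : ℂ) * v) * (-(σ : ℂ)))
    (fun v => (-exp k₀ / (σ : ℂ)) * g (1 - (σ : ℂ) * v)) (f₁ 1) ?_ ?_ ?_ ?_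
  rotate_left
  · intro v hv
    exact (hasDerivAt_B D (re_pos_of_mem_ball hv)).add
      ((h1 _ (hin v hv).le).1.hasDerivAt.comp v (hline v))
  · intro n hn v hv hreg
    have e1 := region D hreg
    have e2 : ‖f₁ (1 - (σ : ℂ) * v) - f₁ 1‖ ≤ M * ‖(1 - (σ : ℂ) * v) - 1‖ := by
      refine (convex_closedBall (0 : ℂ) 1).norm_image_sub_le_of_norm_deriv_le (f := f₁)
        (fun x hx => (h1 x (by simpa using hx)).1) (fun x hx => (h1 x (by simpa using hx)).2.1)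
        (by simp) ?_
      rw [mem_closedBall_zero_iff]
      exact (hin v hv).le
    have e3 : ‖(1 - (σ : ℂ) * v) - 1‖ = σ * ‖v‖ := by
      have : (1 - (σ : ℂ) * v) - 1 = -((σ : ℂ) * v) := by ring
      rw [this, norm_neg, norm_mul, norm_real, Real.norm_eq_abs, abs_of_pos hσ0]
    have e4 := norm_le_q D hn hreg
    have e5 := q_le_eps D n
    have e6 : M * (σ * ‖v‖) ≤ ‖v‖ := by
      have : M * (σ * ‖v‖) = (σ * M) * ‖v‖ := by ring
      rw [this]
      nlinarith [norm_nonneg v]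
    have e7 : (B b C v + f₁ (1 - (σ : ℂ) * v)) - f₁ 1 - K b n - b n (v / (s C n : ℂ)) =
        (B b C v - K b n - b n (v / (s C n : ℂ))) + (f₁ (1 - (σ : ℂ) * v) - f₁ 1) := by ring
    show ‖(B b C v + f₁ (1 - (σ : ℂ) * v)) - f₁ 1 - K b n - b n (v / (s C n : ℂ))‖ ≤ 2 * ε C n
    rw [e7]
    rw [e3] at e2
    have e8 := norm_add_le (B b C v - K b n - b n (v / (s C n : ℂ)))
      (f₁ (1 - (σ : ℂ) * v) - f₁ 1)
    linarith
  · intro n hn v hv hreg
    have e1 := norm_B' D hreg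
    have e2 := hAε n
    have e4 := norm_le_q D hn hreg
    have e5 := q_le D.C_ge n
    have e6 : v.re ≤ ‖v‖ := (le_abs_self _).trans (abs_re_le_norm v)
    have e7 : 0 < v.re := hreg.1
    have e8 : ‖deriv f₁ (1 - (σ : ℂ) * v) * (-(σ : ℂ))‖ ≤ 1 := by
      rw [norm_mul, norm_neg, norm_real, Real.norm_eq_abs, abs_of_pos hσ0]
      have := (h1 _ (hin v hv).le).2.1
      nlinarith
    show 2 * v.re * ‖B' φ C v + deriv f₁ (1 - (σ : ℂ) * v) * (-(σ : ℂ))‖ ≤ 3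
    have e9 : 2 * v.re * ‖B' φ C v + deriv f₁ (1 - (σ : ℂ) * v) * (-(σ : ℂ))‖ ≤
        2 * v.re * (‖B' φ C v‖ + 1) := by
      apply mul_le_mul_of_nonneg_left _ (by linarith)
      exact (norm_add_le _ _).trans (by linarith)
    nlinarith
  · intro v hv
    have hz := hin v hv
    have h2 := ((hgd _ (by rwa [mem_ball_zero_iff])).comp v (hline v)).const_mul
      (-exp k₀ / (σ : ℂ))
    refine h2.congr_deriv ?_
    have e1 : f (1 - (σ : ℂ) * v) = (B b C v + f₁ (1 - (σ : ℂ) * v)) - k₀ := by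
      simp only [hf]
      rw [hWv]
      ring
    rw [e1, exp_sub]
    have := exp_ne_zero k₀
    field_simp
  obtain ⟨w₀, hw₀⟩ := hval
  have hcne : (-exp k₀ / (σ : ℂ)) ≠ 0 := div_ne_zero (neg_ne_zero.2 (exp_ne_zero _)) hσc
  refine ⟨f, g, hfd, ?_, ?_, hgd, ?_, ?_, ?_, ?_⟩
  · simp only [hf]
    rw [h10, hk₀]
    ring
  · simp [hg]
  · refine ⟨max (1 + 2 * η) ((r + r₁) / 2), max_lt (by linarith) (by linarith), ?_⟩
    intro z hz
    have hz' : ‖z‖ < 1 := by simpa using hz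
    refine (htot z hz').trans ?_
    by_cases hcase : ‖1 - z‖ ≤ δ
    · refine le_trans ?_ (le_max_left _ _)
      obtain ⟨n, hn⟩ := exists_reg D (hWpos z hz')
      have e1 := norm_B' D hn
      have e2 := hAε n
      have e3 : (1 - ‖z‖ ^ 2) * ‖deriv f₁ z‖ ≤ 2 * δ * M := by
        have e4 := one_sub_sq_le z
        have e5 : (1 - z).re ≤ ‖1 - z‖ := (le_abs_self _).trans (abs_re_le_norm _)
        have e6 := (h1 z hz'.le).2.1
        exact mul_le_mul (by linarith) e6 (norm_nonneg _) (by linarith)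
      linarith
    · refine le_trans ?_ (le_max_right _ _)
      push Not at hcase
      have e1 := (h1 z hz'.le).2.2
      have hWn0 : 0 < ‖W z‖ := by
        rw [hWn]
        exact div_pos (by linarith) hσ0
      have e2 := norm_B'_le D (hWpos z hz') hWn0 le_rfl
      have e3 : (W z).re ≤ ‖W z‖ := (le_abs_self _).trans (abs_re_le_norm _)
      have e4 : 2 * (W z).re * ‖B' φ C (W z)‖ ≤ 2 * c₀ * σ / δ := by
        calc 2 * (W z).re * ‖B' φ C (W z)‖ ≤ 2 * ‖W z‖ * (c₀ / ‖W z‖ ^ 2) := by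
              apply mul_le_mul (by linarith) e2 (norm_nonneg _) (by positivity)
          _ = 2 * c₀ * σ / ‖1 - z‖ := by
              have h7 : ‖W z‖ = ‖1 - z‖ / σ := hWn z
              have h8 : 0 < ‖1 - z‖ := by linarith
              rw [h7]
              field_simp
          _ ≤ 2 * c₀ * σ / δ := by
              apply div_le_div_of_nonneg_left (by positivity) hδpos hcase.le
      linarith
  · obtain ⟨v₀, hv₀, hrate⟩ := rate_small (M := M) hσ0
    set κ : ℝ := min v₀ (1 / (4 * (M + 1))) with hκ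
    have hκ0 : 0 < κ := lt_min hv₀ (by positivity)
    have hκv : κ ≤ v₀ := min_le_left _ _
    have hκM : 2 * κ * M ≤ 1 / 2 := by
      have : κ ≤ 1 / (4 * (M + 1)) := min_le_right _ _
      rw [le_div_iff₀ (by positivity)] at this
      nlinarith
    refine ⟨1 - κ, by linarith, ?_⟩
    intro z hz1 hz2
    have hv : 0 < 1 - ‖z‖ := by linarith
    have hvk : 1 - ‖z‖ < κ := by linarith
    have hu0 := hone z hz2
    have hu : 1 - ‖z‖ ^ 2 ≤ 2 * (1 - ‖z‖) := by nlinarith [norm_nonneg z]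
    have hrp : 0 < (1 - ‖z‖) ^ (1 / 600 : ℝ) := Real.rpow_pos_of_pos hv _
    have hM1 : (1 - ‖z‖ ^ 2) * ‖deriv f₁ z‖ ≤ 2 * (1 - ‖z‖) * M :=
      mul_le_mul hu (h1 z hz2.le).2.1 (norm_nonneg _) (by linarith)
    obtain ⟨n, hn⟩ := exists_reg D (hWpos z hz2)
    have hsn := s_pos (C := C) n
    by_cases hcase : (1 - ‖z‖ ^ 2) * (3 * Real.exp (C (n + 1)) ^ 2 / s C n / σ) ≤ 1 / 2
    · have e1 := norm_B'_reg D hn
      have e2 : (1 - ‖z‖ ^ 2) * (‖B' φ C (W z)‖ / σ) ≤ 1 / 2 := by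
        refine le_trans (mul_le_mul_of_nonneg_left ?_ hu0) hcase
        exact div_le_div_of_nonneg_right e1 hσ0.le
      have e3 := mul_le_mul_of_nonneg_left (hnd z hz2) hu0
      rw [mul_add] at e3
      have e4 : 2 * (1 - ‖z‖) * M ≤ 1 / 2 := by nlinarith
      linarith
    · push Not at hcase
      have e1 := norm_B' D hn
      have e2 := hlim n
      have e4 := htot z hz2
      have e5 : Real.exp (-84 * C n) ≤ 12 * (1 - ‖z‖) / σ := by
        have g1 : 3 * Real.exp (C (n + 1)) ^ 2 / s C n / σ =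
            3 * Real.exp (C (n + 1)) ^ 2 / (s C n * σ) := by
          rw [div_div]
        rw [g1, ← mul_div_assoc, lt_div_iff₀ (by positivity)] at hcase
        have g2 := s_ge D hdouble n
        have g3 : Real.exp (C (n + 1)) ^ 2 = Real.exp (4 * C n) := by
          rw [← Real.exp_nat_mul, hdouble n]
          congr 1
          push_cast
          ring
        rw [g3] at hcase
        have g4 : Real.exp (-84 * C n) * Real.exp (4 * C n) = Real.exp (-80 * C n) := by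
          rw [← Real.exp_add]
          congr 1
          ring
        have hE := Real.exp_pos (4 * C n)
        rw [le_div_iff₀ hσ0]
        by_contra hcon
        push Not at hcon
        have g5 : 12 * (1 - ‖z‖) * Real.exp (4 * C n) <
            Real.exp (-84 * C n) * σ * Real.exp (4 * C n) := mul_lt_mul_of_pos_right hcon hE
        have g6 : Real.exp (-84 * C n) * σ * Real.exp (4 * C n) = Real.exp (-80 * C n) * σ := by
          rw [← g4]; ring
        rw [g6] at g5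
        have g7 : Real.exp (-80 * C n) * σ ≤ s C n * σ := mul_le_mul_of_nonneg_right g2 hσ0.le
        have g8 : (1 - ‖z‖ ^ 2) * Real.exp (4 * C n) ≤ 2 * (1 - ‖z‖) * Real.exp (4 * C n) :=
          mul_le_mul_of_nonneg_right hu hE.le
        linarith
      have e6 : Real.exp (-C n / 6) ≤ (12 * (1 - ‖z‖) / σ) ^ (1 / 504 : ℝ) := by
        have g1 : Real.exp (-C n / 6) = Real.exp (-84 * C n) ^ (1 / 504 : ℝ) := by
          rw [← Real.exp_mul]
          congr 1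
          ring
        rw [g1]
        exact Real.rpow_le_rpow (Real.exp_pos _).le e5 (by norm_num)
      have e7 := hrate (1 - ‖z‖) hv (hvk.trans_le hκv)
      linarith
  · intro z hz
    have hz' : ‖z‖ < 1 := by linarith
    have e1 : f z - f₁ z = B b C (W z) - k₀ := by simp only [hf]; ring
    rw [e1]
    have hbb : ∀ y : ℂ, ‖y‖ ≤ ρ₀ → ‖B b C (W y)‖ ≤ e / 4 := by
      intro y hy
      have hy' : ‖y‖ < 1 := by linarith
      have e2 : 1 - ρ₀ ≤ ‖1 - y‖ := by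
        have := norm_sub_norm_le (1 : ℂ) y
        rw [norm_one] at this
        linarith
      have e3 : 0 < ‖W y‖ := by
        rw [hWn]
        exact div_pos (by linarith) hσ0
      refine (norm_B_le D (hWpos y hy') e3 le_rfl).trans ?_
      rw [hWn]
      exact hσe _ e2
    have e2 := hbb z hz
    have e3 : ‖k₀‖ ≤ e / 4 := hbb 0 (by
      rw [norm_zero]
      exact (norm_nonneg z).trans hz)
    have e4 := norm_sub_le (B b C (W z)) k₀
    linarith
  · refine ⟨w₀ / (-exp k₀ / (σ : ℂ)), infinite_of_close ?_ ?_⟩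
    · rintro z ⟨hz, -⟩ rfl
      simp at hz
    · intro e' he'
      have hCs : ∀ n : ℕ, 2 * Real.exp (C n) * s C n ≤
          (1 / 2) ^ n * (2 * (Real.exp (C 0) * s C 0)) := by
        intro n
        have := Es_add D.C_ge 0 n
        simp only [add_zero] at this
        nlinarith
      have hlim' : Tendsto (fun n : ℕ => ((1 : ℝ) / 2) ^ n * (2 * (Real.exp (C 0) * s C 0)))
          atTop (𝓝 0) := by
        have := (tendsto_pow_atTop_nhds_zero_of_lt_one (r := (1 : ℝ) / 2) (by norm_num)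
          (by norm_num)).mul_const (2 * (Real.exp (C 0) * s C 0))
        simpa using this
      obtain ⟨N, hN⟩ := (hlim'.eventually (gt_mem_nhds he')).exists_forall_of_atTop
      obtain ⟨v, hv, hGv, hvn⟩ := hw₀ (N + 1) (by omega)
      have h2 := hN (N + 1) (by omega)
      have h3 := hCs (N + 1)
      refine ⟨1 - (σ : ℂ) * v, ⟨?_, ?_⟩, ?_⟩
      · rw [mem_ball_zero_iff]
        exact hin v hv
      · rw [eq_div_iff hcne, mul_comm]
        exact hGv
      · have e3 : 1 - (1 - (σ : ℂ) * v) = (σ : ℂ) * v := by ring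
        rw [e3, norm_mul, norm_real, Real.norm_eq_abs, abs_of_pos hσ0]
        have e4 : σ * ‖v‖ ≤ ‖v‖ := by nlinarith [norm_nonneg v]
        linarith

/-- Density with a rate. -/
theorem dense_rate {r : ℝ} (hr : 1 < r) {f₀ : ℂ → ℂ}
    (hf₀ : DifferentiableOn ℂ f₀ (Metric.ball 0 1)) (h00 : f₀ 0 = 0)
    (hn : ∀ z ∈ Metric.ball (0 : ℂ) 1, (1 - ‖z‖ ^ 2) * ‖deriv f₀ z‖ ≤ r)
    {ρ₀ : ℝ} (hρ₀ : ρ₀ < 1) {e : ℝ} (he : 0 < e) :
    ∃ f g : ℂ → ℂ, DifferentiableOn ℂ f (Metric.ball 0 1) ∧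
    f 0 = 0 ∧ g 0 = 0 ∧ (∀ z ∈ Metric.ball (0 : ℂ) 1, HasDerivAt g (exp (f z)) z) ∧
    (∃ r' < r, ∀ z ∈ Metric.ball (0 : ℂ) 1, (1 - ‖z‖ ^ 2) * ‖deriv f z‖ ≤ r') ∧
    (∃ ρ < 1, ∀ z : ℂ, ρ < ‖z‖ → ‖z‖ < 1 →
      (1 - ‖z‖ ^ 2) * ‖deriv f z‖ ≤ 1 + (1 - ‖z‖) ^ (1 / 600 : ℝ)) ∧
    (∀ z : ℂ, ‖z‖ ≤ ρ₀ → ‖f z - f₀ z‖ < e) ∧
    ∃ w : ℂ, {z ∈ Metric.ball (0 : ℂ) 1 | g z = w}.Infinite := by
  obtain ⟨f₁, M, r₁, hM, hr₁, h10, h1, hclose⟩ :=
    approx (by linarith : (0 : ℝ) < r) hf₀ h00 hn hρ₀ (half_pos he)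
  obtain ⟨f, g, a1, a2, a3, a4, a5, a6, a7, a8⟩ := dense_aux hr hr₁ hM h10 h1 hρ₀ (half_pos he)
  refine ⟨f, g, a1, a2, a3, a4, a5, a6, fun z hz => ?_, a8⟩
  have e1 := a7 z hz
  have e2 := hclose z hz
  have e3 : f z - f₀ z = (f z - f₁ z) + (f₁ z - f₀ z) := by ring
  rw [e3]
  have := norm_add_le (f z - f₁ z) (f₁ z - f₀ z)
  linarith

end Pool.Agent.H50.IR
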