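import Mathlib
import Pool.Agent.H50.IR.Defs

/-! Plan (all statements). Not imported by anything. -/

open Complex Set Filter Topology

namespace Pool.Agent.H50.IR.Plan

open Pool.Agent.H50.IV Pool.Agent.H50.IR

/-- R1 (helper91; file `Pool/Agent/H50/IR/Base.lean`, may import IV/Base): a quantitative fold. -/
theorem base_quant : ∃ C₀ : ℝ, 2 ≤ C₀ ∧ ∀ C : ℝ, C₀ ≤ C → ∃ (β φ g : ℂ → ℂ) (ζ : ℂ),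
    Real.exp (-C) ≤ ζ.re ∧ ‖ζ‖ ≤ Real.exp C ∧
    (∀ z, 0 ≤ z.re → HasDerivAt β (φ z) z) ∧
    (∀ z, 0 ≤ z.re → HasDerivAt g (exp (β z)) z) ∧
    (∀ z, 0 ≤ z.re → 2 * z.re * ‖φ z‖ ≤ 1 + Real.exp (-C / 6)) ∧
    (∀ z, 0 ≤ z.re → ‖φ z‖ ≤ Real.exp C / (1 + ‖z‖) ^ 2) ∧
    (∀ z, 0 ≤ z.re → ‖β z‖ ≤ Real.exp C / (1 + ‖z‖)) ∧
    (∀ z, 0 ≤ z.re → ‖β z‖ ≤ C) ∧ g ζ = g 0 := by
  sorry

/-- R5 (helper7; file `Pool/Agent/H50/IR/Value.lean`): a value taken at every scale `n ≥ 1`. -/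
theorem value_abs {b φ F : ℕ → ℂ → ℂ} {ζ : ℕ → ℂ} {C A : ℕ → ℝ}
    (D : Pool.Agent.H50.IR.Data b φ F ζ C A)
    (Bt Bt' G : ℂ → ℂ) (k : ℂ) (hB : ∀ z ∈ Metric.ball (1 : ℂ) 1, HasDerivAt Bt (Bt' z) z)
    (hreg : ∀ n, 1 ≤ n → ∀ z ∈ Metric.ball (1 : ℂ) 1, z ∈ Reg C n →
      ‖Bt z - k - K b n - b n (z / (s C n : ℂ))‖ ≤ 2 * Pool.Agent.H50.IR.ε C n)
    (hB' : ∀ n, 1 ≤ n → ∀ z ∈ Metric.ball (1 : ℂ) 1, z ∈ Reg C n → 2 * z.re * ‖Bt' z‖ ≤ 3)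
    (hG : ∀ z ∈ Metric.ball (1 : ℂ) 1, HasDerivAt G (exp (Bt z)) z) :
    ∃ w : ℂ, ∀ n, 1 ≤ n → ∃ z ∈ Metric.ball (1 : ℂ) 1, G z = w ∧
      ‖z‖ ≤ 2 * Real.exp (C n) * s C n := by
  sorry

end Pool.Agent.H50.IR.Plan
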